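import Pool.Agent.KS6_28.MW.Gap

/-!
# The converse
-/

set_option linter.unusedSectionVars false
set_option linter.style.haveILetI false

open CategoryTheory Limits MonoidalCategory Triangulated Pretriangulated

universe u v₁ v₂ u₁ u₂ w w'

namespace Pool.Agent.KS6_28.MW

open Pool.Agent.KS6_13.PF
open Pool.Agent.W492
open Pool.Agent.W492.MT (Setup InDeg IsSum tr)
open Pool.Agent.W492.PC Pool.Agent.W492.TS

variable {Λ : Type w} [Nonempty Λ] {M : Motives.{v₁, v₂, u₁, u₂} Λ} {G : Varieties.{u} M}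

/-- a degree operator of a direct sum -/
theorem hasDegree_biprod {A B : M.T} (hA : HasDegree M A) (hB : HasDegree M B) :
    HasDegree M (A ⊞ B) := by
  obtain ⟨δ, hδ⟩ := hA
  obtain ⟨ε, hε⟩ := hB
  refine ⟨biprod.fst ≫ δ ≫ biprod.inl + biprod.snd ≫ ε ≫ biprod.inr, fun n => ?_⟩
  have h1 : (biprod.fst ≫ δ ≫ biprod.inl + biprod.snd ≫ ε ≫ biprod.inr : A ⊞ B ⟶ A ⊞ B) -
      (n : ℚ) • 𝟙 (A ⊞ B) = biprod.fst ≫ (δ - (n : ℚ) • 𝟙 A) ≫ biprod.inl +
        biprod.snd ≫ (ε - (n : ℚ) • 𝟙 B) ≫ biprod.inr := by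
    rw [← biprod.total, Preadditive.sub_comp, Preadditive.sub_comp, Preadditive.comp_sub,
      Preadditive.comp_sub, Linear.smul_comp, Linear.smul_comp, Linear.comp_smul,
      Linear.comp_smul, Category.id_comp, Category.id_comp, smul_add]
    abel
  rw [h1]
  exact (((hδ n).comp_right _).comp_left _).add (((hε n).comp_right _).comp_left _)

theorem hasDegree_of_isSum (n : ℕ) : ∀ {X : M.T},
    IsSum (fun Y => ∃ d, G.Chow Y ∧ InDeg M.R M.s d Y) n X → HasDegree M X := by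
  induction n with
  | zero =>
    intro X hX
    refine ⟨0, fun n => ?_⟩
    have h1 : (0 : X ⟶ X) - (n : ℚ) • 𝟙 X = 0 := IsZero.eq_of_src hX _ _
    rw [h1]
    exact ZeroAt.zero _ _ _
  | succ n ih =>
    rintro X ⟨A, B, ⟨d, -, hd⟩, hB, ⟨e⟩⟩
    exact (hasDegree_biprod ⟨_, isDegree_of_inDeg hd⟩ (ih hB)).retract (Retract.ofIso e)

/-- a composition through a direct sum -/
theorem comp_eq_zero_of_isSum {𝒬 : ObjectProperty M.T} (n : ℕ) : ∀ {X : M.T},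
    IsSum 𝒬 n X → ∀ {m : ℤ} {W Z : M.T} (f : W ⟶ X⟦m⟧) (φ : X⟦m⟧ ⟶ Z),
    (∀ (A : M.T) (r : Retract A X), 𝒬 A → f ≫ r.r⟦m⟧' ≫ r.i⟦m⟧' ≫ φ = 0) → f ≫ φ = 0 := by
  induction n with
  | zero =>
    intro X hX m W Z f φ _
    rw [(Functor.map_isZero (shiftFunctor M.T m) hX).eq_of_tgt f 0, zero_comp]
  | succ n ih =>
    rintro X ⟨A, B, hA, hB, ⟨e⟩⟩ m W Z f φ H
    obtain ⟨rA, rB, h1⟩ : ∃ (rA : Retract A X) (rB : Retract B X),
        rA.r ≫ rA.i + rB.r ≫ rB.i = 𝟙 X := by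
      refine ⟨⟨biprod.inl ≫ e.inv, e.hom ≫ biprod.fst, by simp⟩,
        ⟨biprod.inr ≫ e.inv, e.hom ≫ biprod.snd, by simp⟩, ?_⟩
      have h2 : (e.hom ≫ biprod.fst) ≫ biprod.inl ≫ e.inv +
          (e.hom ≫ biprod.snd) ≫ biprod.inr ≫ e.inv =
          e.hom ≫ (biprod.fst ≫ biprod.inl + biprod.snd ≫ biprod.inr) ≫ e.inv := by
        simp only [Category.assoc, Preadditive.add_comp, Preadditive.comp_add]
      rw [h2, biprod.total, Category.id_comp, e.hom_inv_id]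
    have h3 : (f ≫ rB.r⟦m⟧') ≫ (rB.i⟦m⟧' ≫ φ) = 0 := by
      refine ih hB _ _ fun A' r' hA' => ?_
      have := H A' (r'.trans rB) hA'
      simpa only [Retract.trans_i, Retract.trans_r, Functor.map_comp, Category.assoc] using this
    have h4 : φ = (rA.r ≫ rA.i + rB.r ≫ rB.i)⟦m⟧' ≫ φ := by
      rw [h1, CategoryTheory.Functor.map_id, Category.id_comp]
    rw [h4, Functor.map_add, Preadditive.add_comp, Preadditive.comp_add, Functor.map_comp,
      Functor.map_comp, Category.assoc, Category.assoc, H A rA hA, zero_add]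
    simpa only [Category.assoc] using h3

/-- numerically trivial classes `1 ⟶ Y` in degree `0` -/
theorem eq_zero_of_pureNumerical (hG : IsSmoothProj G) (h : PureNumerical M G.Chow) {Y : M.T}
    (hY : G.Chow Y) (hd : InDeg M.R M.s 0 Y) (f : 𝟙_ M.T ⟶ Y) (hf : NumTrivial M f) :
    f = 0 := by
  by_contra hne
  obtain ⟨g, hg⟩ : ∃ g : Yᘁ ⊗ 𝟙_ M.T ⟶ 𝟙_ M.T,
      g = (Yᘁ ◁ f) ≫ ε_ Y Yᘁ := ⟨_, rfl⟩
  have h1 : g ≠ 0 := by
    intro h0
    apply hne
    have h2 : (tensorLeftHomEquiv (𝟙_ M.T) Y Yᘁ (𝟙_ M.T)).symm (f ≫ (ρ_ Y).inv) = g := by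
      rw [hg]
      simp [tensorLeftHomEquiv, MonoidalCategory.unitors_equal]
    have h3 : (tensorLeftHomEquiv (𝟙_ M.T) Y Yᘁ (𝟙_ M.T)).symm 0 = 0 := by
      simp [tensorLeftHomEquiv]
    have h4 : f ≫ (ρ_ Y).inv = 0 := by
      apply (tensorLeftHomEquiv (𝟙_ M.T) Y Yᘁ (𝟙_ M.T)).symm.injective
      rw [h2, h3, h0]
    rw [← cancel_mono (ρ_ Y).inv, h4, zero_comp]
  have h0 : InDeg M.R M.s 0 (Yᘁ ⊗ 𝟙_ M.T) := by
    have := inDeg_tensor_unit (hG.setup.dual_deg Y 0 hY hd)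
    rwa [neg_zero] at this
  obtain ⟨x, hx⟩ := h (Yᘁ ⊗ 𝟙_ M.T) 0 (chow_tensor_unit hG (hG.setup.dual_mem Y hY)) h0
    ((shiftFunctorZero M.T ℤ).hom.app _ ≫ g) (by
      intro h2
      apply h1
      rw [← cancel_epi ((shiftFunctorZero M.T ℤ).hom.app _), h2, comp_zero])
  obtain ⟨x', hx'⟩ : ∃ x' : 𝟙_ M.T ⟶ Yᘁ ⊗ 𝟙_ M.T,
      x' = x ≫ (shiftFunctorZero M.T ℤ).hom.app _ := ⟨_, rfl⟩
  rw [← Category.assoc, ← hx'] at hx
  apply hx
  have h5 := hf ((λ_ Y).inv ≫ ((x' ≫ (ρ_ Yᘁ).hom) ▷ Y) ≫ ε_ Y Yᘁ)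
  rw [← h5, hg]
  rw [MonoidalCategory.leftUnitor_inv_naturality_assoc, whisker_exchange_assoc]
  have h6 : x' = (λ_ (𝟙_ M.T)).inv ≫ (x' ≫ (ρ_ Yᘁ).hom) ▷ 𝟙_ M.T := by
    simp [MonoidalCategory.unitors_inv_equal]
  nth_rewrite 1 [h6]
  rw [Category.assoc]

section
variable (hG : IsSmoothProj G) (hN : PureNumerical M G.Chow)
  (hV : ∀ (X : M.T) (d : ℤ), G.Chow X → InDeg M.R M.s d X → ∀ m : ℤ, m < d →
    ∀ f : 𝟙_ M.T ⟶ X⟦m⟧, f = 0)
  (hK : MT.Kunneth M.R M.s G.Chow)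
include hG hN hV hK

theorem inDeg_cls {X Y : M.T} {a b : ℤ} (hX : G.Chow X) (hXd : InDeg M.R M.s a X)
    (hYd : InDeg M.R M.s b Y) : InDeg M.R M.s (b + -a) (Y ⊗ Xᘁ) :=
  inDeg_tensor hG hYd (hG.setup.dual_deg X a hX hXd)

theorem hom_eq_zero_of_lt {X Y : M.T} {a b : ℤ} (hX : G.Chow X) (hXd : InDeg M.R M.s a X)
    (hY : G.Chow Y) (hYd : InDeg M.R M.s b Y) (hab : a < b) (e : X ⟶ Y) : e = 0 := by
  apply cls_eq_zero
  have h1 : cls e ≫ (shiftFunctorZero M.T ℤ).inv.app _ = 0 :=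
    hV _ _ (hG.setup.tensor_mem _ _ hY (hG.setup.dual_mem X hX))
      (inDeg_cls hG hN hV hK hX hXd hYd) 0 (by omega) _
  rw [← cancel_mono ((shiftFunctorZero M.T ℤ).inv.app _), h1, zero_comp]

theorem hom_eq_zero_of_eq {X Y : M.T} {a : ℤ} (hX : G.Chow X) (hXd : InDeg M.R M.s a X)
    (hY : G.Chow Y) (hYd : InDeg M.R M.s a Y) (e : X ⟶ Y) (he : ∀ n, ZeroAt M n e) :
    e = 0 := by
  apply cls_eq_zero
  have h0 := inDeg_cls hG hN hV hK hX hXd hYd
  rw [add_neg_cancel] at h0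
  exact eq_zero_of_pureNumerical hG hN (hG.setup.tensor_mem _ _ hY (hG.setup.dual_mem X hX))
    h0 _ (numTrivial_cls hG he)

/-- the components of a numerically trivial class of weight `m` -/
theorem comp_eq_zero {X : M.T} (hX : G.Chow X) {m : ℤ} {δ : X ⟶ X} (hδ : IsDegree M δ)
    {f : 𝟙_ M.T ⟶ X⟦m⟧} (hf : f ≫ δ⟦m⟧' = (m : ℚ) • f) (hf' : NumTrivial M f) (k : ℕ) :
    ∀ (b : ℤ), m - k ≤ b → ∀ (Y : M.T), G.Chow Y → InDeg M.R M.s b Y → ∀ g : X ⟶ Y,
      f ≫ g⟦m⟧' = 0 := by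
  induction k with
  | zero =>
    intro b hb Y hY hYd g
    rcases eq_or_lt_of_le (show m ≤ b by simpa using hb) with h | h
    · subst h
      rcases lt_trichotomy m 0 with h0 | h0 | h0
      · exact hom_zero_of_neg hG hN hY hYd h0 _
      · subst h0
        have h1 : (f ≫ g⟦(0 : ℤ)⟧') ≫ (shiftFunctorZero M.T ℤ).hom.app Y = 0 :=
          eq_zero_of_pureNumerical hG hN hY hYd _ ((hf'.comp _).comp _)
        rw [← cancel_mono ((shiftFunctorZero M.T ℤ).hom.app Y), h1, zero_comp]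
      · exact hG.setup.orth _ _ hG.setup.one_mem hY m h0 _
    · exact hV Y b hY hYd m h _
  | succ k ih =>
    intro b hb Y hY hYd g
    by_cases hbk : m - k ≤ b
    · exact ih b hbk Y hY hYd g
    obtain ⟨c, hc⟩ : ∃ c : X ⟶ Y, c = (δ - (b : ℚ) • 𝟙 X) ≫ g := ⟨_, rfl⟩
    have hc0 : ∀ n, ZeroAt M n c := fun n => by
      by_cases hn : n = b
      · subst hn
        rw [hc]
        exact (hδ n).comp_right g
      · exact zeroAt_of_inDeg_right hn hYd c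
    obtain ⟨n, hn⟩ := hK X hX
    have h1 : f ≫ c⟦m⟧' = 0 := by
      refine comp_eq_zero_of_isSum n hn f _ fun A r => ?_
      rintro ⟨a, hA, ha⟩
      rcases lt_trichotomy a b with h | h | h
      · have h2 : r.i ≫ c = 0 := hom_eq_zero_of_lt hG hN hV hK hA ha hY hYd h _
        rw [← Functor.map_comp, h2, Functor.map_zero, comp_zero, comp_zero]
      · subst h
        have h2 : r.i ≫ c = 0 :=
          hom_eq_zero_of_eq hG hN hV hK hA ha hY hYd _ fun n => (hc0 n).comp_left _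
        rw [← Functor.map_comp, h2, Functor.map_zero, comp_zero, comp_zero]
      · have h2 : f ≫ r.r⟦m⟧' = 0 := ih a (by push_cast at hb; omega) A hA ha r.r
        rw [← Category.assoc, h2, zero_comp]
    have h2 : f ≫ c⟦m⟧' = ((m : ℚ) - b) • (f ≫ g⟦m⟧') := by
      rw [hc, Functor.map_comp, Functor.map_sub, Functor.map_smul,
        CategoryTheory.Functor.map_id, Preadditive.sub_comp, Preadditive.comp_sub,
        ← Category.assoc, hf, Linear.smul_comp, Linear.smul_comp, Category.id_comp,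
        Linear.comp_smul, sub_smul]
    rw [h2] at h1
    have h3 : (m : ℚ) - b ≠ 0 := by
      rw [sub_ne_zero]
      intro h4
      have h5 : m = b := by exact_mod_cast h4
      apply hbk
      omega
    exact (smul_eq_zero.1 h1).resolve_left h3

theorem wt_of_kunneth {X : M.T} (hX : G.Chow X) (m : ℤ) : Wt M m X := by
  intro δ f hδ hf hf'
  obtain ⟨n, hn⟩ := hK X hX
  have h1 : f ≫ 𝟙 (X⟦m⟧) = 0 := by
    refine comp_eq_zero_of_isSum n hn f _ fun A r => ?_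
    rintro ⟨a, hA, ha⟩
    rw [← Category.assoc, comp_eq_zero hG hN hV hK hX hδ hf hf' (m - a).toNat a (by omega) A hA ha
      r.r, zero_comp]
  rwa [Category.comp_id] at h1

end

/-- condition (1) implies condition (3) -/
theorem of_motivic (hG : IsSmoothProj G) (h : M.toRealised.HasMotivicTStructure) :
    KunnethC G ∧ MiddleWeight G := by
  rw [hasMotivicTStructure_iff] at h
  have key := (general_criterion hG.setup (lefschetz hG)).out 0 1
  obtain ⟨hK, h2⟩ := key.1 h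
  refine ⟨fun V n => ?_, ?_⟩
  · obtain ⟨k, hk⟩ := hK _ (chow_obj V n)
    exact hasDegree_of_isSum k hk
  · intro V n m δ f _ hδ hf hf'
    exact wt_of_kunneth hG (fun X d hX hd => (h2 X d hX hd).2)
      (fun X d hX hd => (h2 X d hX hd).1) hK (chow_obj V n) m δ f hδ hf hf'

end Pool.Agent.KS6_28.MW
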