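import Pool.Agent.KS6_28.MW.Conv

/-!
# The main theorem
-/

open CategoryTheory Limits MonoidalCategory Triangulated Pretriangulated

universe u v₁ v₂ u₁ u₂ w w'

namespace Pool.Agent.KS6_28.MW

open Pool.Agent.KS6_13.PF
open Pool.Agent.W492

theorem main {Λ : Type w} [Nonempty Λ] {ι : Type w'} {M : ι → Motives.{v₁, v₂, u₁, u₂} Λ}
    {G : ∀ K, Varieties.{u} (M K)} (hG : ∀ K, IsSmoothProj (G K))
    (hE : ∀ K, ∃ (K' : ι) (E : RationalData (G K) (G K')), IsRational E) :
    List.TFAE [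
      ∀ K, (M K).toRealised.HasMotivicTStructure,
      ∀ K, MT.Kunneth (M K).R (M K).s (G K).Chow ∧ PureNumerical (M K) (G K).Chow,
      ∀ K, KunnethC (G K) ∧ MiddleWeight (G K)] := by
  tfae_have 1 → 3 := fun h K => of_motivic (hG K) (h K)
  tfae_have 3 → 2 := fun h K => ⟨kunneth (hG K) (base (hG K) (h K).1 (h K).2),
    pureNumerical_of_middleWeight (hG K) (h K).1 (h K).2⟩
  tfae_have 2 → 1 := fun h K =>
    motivic_of_pureNumerical hG hE (fun K => (h K).2) (fun K => (h K).1) K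
  tfae_finish

end Pool.Agent.KS6_28.MW
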