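import Pool.Agent.KS6_28.MW.Defs
import Pool.Graph.R_pool_sql_team_seeded_f72693b1.W492.PC.Fin

/-!
# Basic properties of the cohomology of the realisations
-/

set_option linter.unusedSectionVars false
set_option linter.style.haveILetI false

open CategoryTheory Limits MonoidalCategory Triangulated Pretriangulated

universe u v₁ v₂ u₁ u₂ w

namespace Pool.Agent.KS6_28.MW

open Pool.Agent.KS6_13.PF
open Pool.Agent.W492.MT (Setup InDeg Kunneth IsSum tr)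
open Pool.Agent.W492.PC

variable {Λ : Type w} {M : Motives.{v₁, v₂, u₁, u₂} Λ}

/-! ### `ZeroAt` is an ideal -/

theorem ZeroAt.zero (n : ℤ) (X Y : M.T) : ZeroAt M n (0 : X ⟶ Y) := fun ℓ => by simp

theorem ZeroAt.add {n : ℤ} {X Y : M.T} {f g : X ⟶ Y} (hf : ZeroAt M n f) (hg : ZeroAt M n g) :
    ZeroAt M n (f + g) := fun ℓ => by rw [Functor.map_add, Functor.map_add, hf ℓ, hg ℓ, add_zero]

theorem ZeroAt.neg {n : ℤ} {X Y : M.T} {f : X ⟶ Y} (hf : ZeroAt M n f) :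
    ZeroAt M n (-f) := fun ℓ => by rw [Functor.map_neg, Functor.map_neg, hf ℓ, neg_zero]

theorem ZeroAt.sub {n : ℤ} {X Y : M.T} {f g : X ⟶ Y} (hf : ZeroAt M n f) (hg : ZeroAt M n g) :
    ZeroAt M n (f - g) := by rw [sub_eq_add_neg]; exact hf.add hg.neg

theorem ZeroAt.comp_left {n : ℤ} {X Y Z : M.T} {g : Y ⟶ Z} (hg : ZeroAt M n g) (f : X ⟶ Y) :
    ZeroAt M n (f ≫ g) := fun ℓ => by rw [Functor.map_comp, Functor.map_comp, hg ℓ, comp_zero]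

theorem ZeroAt.comp_right {n : ℤ} {X Y Z : M.T} {f : X ⟶ Y} (hf : ZeroAt M n f) (g : Y ⟶ Z) :
    ZeroAt M n (f ≫ g) := fun ℓ => by rw [Functor.map_comp, Functor.map_comp, hf ℓ, zero_comp]

theorem ZeroAt.smul {n : ℤ} {X Y : M.T} {f : X ⟶ Y} (hf : ZeroAt M n f) (c : ℚ) :
    ZeroAt M n (c • f) := by
  have h : c • f = f ≫ (c • 𝟙 Y) := by rw [Linear.comp_smul, Category.comp_id]
  rw [h]
  exact hf.comp_right _

theorem ZeroAt.sum {n : ℤ} {X Y : M.T} {ι : Type*} (S : Finset ι) (f : ι → (X ⟶ Y))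
    (hf : ∀ i ∈ S, ZeroAt M n (f i)) : ZeroAt M n (∑ i ∈ S, f i) := by
  classical
  induction S using Finset.induction_on with
  | empty => simpa using ZeroAt.zero n X Y
  | insert a S ha ih =>
    rw [Finset.sum_insert ha]
    exact (hf a (Finset.mem_insert_self a S)).add
      (ih fun i hi => hf i (Finset.mem_insert_of_mem hi))

/-- if `f` is an isomorphism on the cohomology in degree `n`, it can be cancelled. -/
theorem ZeroAt.of_comp_isoAt {n : ℤ} {X Y Z : M.T} {f : X ⟶ Y} {g : Y ⟶ Z} (hg : IsoAt M n g)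
    (h : ZeroAt M n (f ≫ g)) : ZeroAt M n f := fun ℓ => by
  haveI := hg ℓ
  have h1 := h ℓ
  rw [Functor.map_comp, Functor.map_comp] at h1
  rwa [← cancel_mono (((M.s ℓ).truncGELE n n).map ((M.R ℓ).map g)), zero_comp]

theorem ZeroAt.of_isoAt_comp {n : ℤ} {X Y Z : M.T} {f : X ⟶ Y} {g : Y ⟶ Z} (hf : IsoAt M n f)
    (h : ZeroAt M n (f ≫ g)) : ZeroAt M n g := fun ℓ => by
  haveI := hf ℓ
  have h1 := h ℓ
  rw [Functor.map_comp, Functor.map_comp] at h1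
  rwa [← cancel_epi (((M.s ℓ).truncGELE n n).map ((M.R ℓ).map f)), comp_zero]

/-! ### degrees -/

theorem isZero_at {n m : ℤ} (h : n ≠ m) {X : M.T} (hX : InDeg M.R M.s m X) (ℓ : Λ) :
    IsZero (((M.s ℓ).truncGELE n n).obj ((M.R ℓ).obj X)) := by
  rcases lt_or_gt_of_ne h with h1 | h1
  · exact isZero_H_of_ge (M.s ℓ) h1 ⟨hX.2 ℓ⟩
  · exact isZero_H_of_le (M.s ℓ) h1 ⟨hX.1 ℓ⟩

theorem zeroAt_of_inDeg_left {n m : ℤ} (h : n ≠ m) {X Y : M.T} (hX : InDeg M.R M.s m X)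
    (f : X ⟶ Y) : ZeroAt M n f := fun ℓ => (isZero_at h hX ℓ).eq_of_src _ _

theorem zeroAt_of_inDeg_right {n m : ℤ} (h : n ≠ m) {X Y : M.T} (hY : InDeg M.R M.s m Y)
    (f : X ⟶ Y) : ZeroAt M n f := fun ℓ => (isZero_at h hY ℓ).eq_of_tgt _ _

theorem zeroAt_of_ge {n m : ℤ} (h : n < m) {X Y : M.T} (hX : ∀ ℓ, M.Ge ℓ m X) (f : X ⟶ Y) :
    ZeroAt M n f := fun ℓ => (isZero_H_of_ge (M.s ℓ) h ⟨hX ℓ⟩).eq_of_src _ _

theorem zeroAt_of_le {n m : ℤ} (h : m < n) {X Y : M.T} (hX : ∀ ℓ, M.Le ℓ m X) (f : X ⟶ Y) :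
    ZeroAt M n f := fun ℓ => (isZero_H_of_le (M.s ℓ) h ⟨hX ℓ⟩).eq_of_src _ _

/-- an object whose cohomology vanishes outside degree `d` is concentrated in degree `d`. -/
theorem inDeg_of_zeroAt {d : ℤ} {X : M.T} (h : ∀ n : ℤ, n ≠ d → ZeroAt M n (𝟙 X)) :
    InDeg M.R M.s d X := by
  have h1 : ∀ (n : ℤ), n ≠ d → ∀ ℓ, IsZero (((M.s ℓ).truncGELE n n).obj ((M.R ℓ).obj X)) := by
    intro n hn ℓ
    have h2 := h n hn ℓ
    rw [CategoryTheory.Functor.map_id, CategoryTheory.Functor.map_id] at h2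
    exact (IsZero.iff_id_eq_zero _).2 h2
  refine ⟨fun ℓ => ?_, fun ℓ => ?_⟩
  · obtain ⟨⟨b, hb⟩, -⟩ := M.bounded ℓ ((M.R ℓ).obj X)
    exact (isLE_of_H (M.s ℓ) b ⟨hb⟩ fun n hn => h1 n hn.ne' ℓ).le
  · obtain ⟨-, ⟨a, ha⟩⟩ := M.bounded ℓ ((M.R ℓ).obj X)
    exact (isGE_of_H (M.s ℓ) a ⟨ha⟩ fun n hn => h1 n hn.ne ℓ).ge

theorem inDeg_retract {d : ℤ} {X Y : M.T} (r : Retract X Y) (hY : InDeg M.R M.s d Y) :
    InDeg M.R M.s d X := by
  refine inDeg_of_zeroAt fun n hn => ?_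
  rw [← r.retract]
  exact (zeroAt_of_inDeg_left hn hY r.r).comp_left r.i

theorem inDeg_of_iso {d : ℤ} {X Y : M.T} (e : X ≅ Y) (hY : InDeg M.R M.s d Y) :
    InDeg M.R M.s d X := inDeg_retract ⟨e.hom, e.inv, e.hom_inv_id⟩ hY

/-! ### degree operators -/

theorem IsDegree.retract {X Y : M.T} (r : Retract X Y) {δ : Y ⟶ Y} (hδ : IsDegree M δ) :
    IsDegree M (r.i ≫ δ ≫ r.r) := fun n => by
  have h : r.i ≫ δ ≫ r.r - (n : ℚ) • 𝟙 X = r.i ≫ (δ - (n : ℚ) • 𝟙 Y) ≫ r.r := by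
    rw [Preadditive.sub_comp, Preadditive.comp_sub, Linear.smul_comp, Category.id_comp,
      Linear.comp_smul, r.retract]
  rw [h]
  exact ((hδ n).comp_right r.r).comp_left r.i

theorem isDegree_of_inDeg {d : ℤ} {X : M.T} (hX : InDeg M.R M.s d X) :
    IsDegree M ((d : ℚ) • 𝟙 X) := fun n => by
  by_cases h : n = d
  · subst h
    rw [sub_self]
    exact ZeroAt.zero _ _ _
  · exact zeroAt_of_inDeg_left h hX _

end Pool.Agent.KS6_28.MW
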