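import Pool.Agent.KS6_13.PF.Defs

/-!
# Motivic cohomology of middle weight: definitions
-/

open CategoryTheory Limits MonoidalCategory Triangulated Pretriangulated

universe u v₁ v₂ u₁ u₂ w

namespace Pool.Agent.KS6_28.MW

open Pool.Agent.KS6_13.PF
open Pool.Agent.W492.MT (Setup InDeg)

variable {Λ : Type w}

/-! ### The cohomology of the realisations -/

/-- The morphism `f` is zero on the cohomology in degree `n` of all realisations. -/
def ZeroAt (M : Motives.{v₁, v₂, u₁, u₂} Λ) (n : ℤ) {X Y : M.T} (f : X ⟶ Y) : Prop :=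
  ∀ ℓ : Λ, ((M.s ℓ).truncGELE n n).map ((M.R ℓ).map f) = 0

/-- The morphism `f` induces an isomorphism on the cohomology in degree `n` of all realisations. -/
def IsoAt (M : Motives.{v₁, v₂, u₁, u₂} Λ) (n : ℤ) {X Y : M.T} (f : X ⟶ Y) : Prop :=
  ∀ ℓ : Λ, IsIso (((M.s ℓ).truncGELE n n).map ((M.R ℓ).map f))

/-- The endomorphism `δ` is a degree operator: for all integers `n` it acts on the cohomology in
degree `n` of the realisations as multiplication by `n`. -/
def IsDegree (M : Motives.{v₁, v₂, u₁, u₂} Λ) {X : M.T} (δ : X ⟶ X) : Prop :=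
  ∀ n : ℤ, ZeroAt M n (δ - (n : ℚ) • 𝟙 X)

/-- `f : 1 ⟶ X` is numerically trivial: `f ≫ g = 0` for all `g : X ⟶ 1`. -/
def NumTrivial (M : Motives.{v₁, v₂, u₁, u₂} Λ) {X : M.T} (f : 𝟙_ M.T ⟶ X) : Prop :=
  ∀ g : X ⟶ 𝟙_ M.T, f ≫ g = 0

/-- `g = a f` -/
def IsMultiple (M : Motives.{v₁, v₂, u₁, u₂} Λ) {X Y : M.T} (a : ℚ) (f g : X ⟶ Y) : Prop :=
  g = a • f

/-! ### Varieties -/

/-- The motives `obj V n = h(V)(n)[2n]` of the smooth projective varieties `V` of pure dimension
`dim V` (over the perfect closure of the field), for all integers `n`, and the object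
`tate = 1(1)[2]`. -/
structure Varieties (M : Motives.{v₁, v₂, u₁, u₂} Λ) where
  Var : Type u
  dim : Var → ℕ
  obj : Var → ℤ → M.T
  tate : M.T

variable {M M' : Motives.{v₁, v₂, u₁, u₂} Λ}

/-- The Chow motives: the direct summands of the motives `h(V)(n)[2n]`. -/
def Varieties.Chow (G : Varieties.{u} M) : ObjectProperty M.T := fun X =>
  ∃ (V : G.Var) (n : ℤ), Nonempty (Retract X (G.obj V n))

/-- The properties of the smooth projective varieties, their Chow motives and their cohomology. -/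
structure IsSmoothProj (G : Varieties.{u} M) : Prop where
  /-- the properties of the category of Chow motives -/
  setup : Setup M.R M.s G.Chow ℚ
  /-- the cohomology of `V` lives in degrees `0, …, 2 dim V` -/
  degrees : ∀ (V : G.Var) (n : ℤ) (ℓ : Λ), M.Ge ℓ (-2 * n) (G.obj V n) ∧
    M.Le ℓ (2 * G.dim V - 2 * n) (G.obj V n)
  /-- `1(1)[2]` is an invertible object of degree `-2` -/
  tate_deg : InDeg M.R M.s (-2) G.tate
  tate_inv : ∃ L : M.T, Nonempty (L ⊗ G.tate ≅ 𝟙_ M.T)
  twist : ∀ (V : G.Var) (n : ℤ), Nonempty (G.obj V (n + 1) ≅ G.tate ⊗ G.obj V n)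
  /-- Poincaré duality for `V` and the Künneth formula for `W = V × V` -/
  square : ∀ (V : G.Var) (n : ℤ), ∃ W : G.Var, G.dim W = 2 * G.dim V ∧
    Nonempty (G.obj W (G.dim V) ≅ G.obj V n ⊗ (G.obj V n)ᘁ)
  /-- the hard Lefschetz theorem: for a smooth intersection `Y` of `i` ample hypersurfaces in `V`, of
  codimension `i`, the composition of restriction and direct image `h(V) ⟶ h(Y) ⟶ h(V)(i)[2i]` is
  an isomorphism from `H^(dim V - i)(V)` to `H^(dim V + i)(V)(i)` -/
  hyperplane : ∀ (V : G.Var) (n : ℤ) (i : ℕ), i ≤ G.dim V →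
    ∃ (Y : G.Var) (f : G.obj V n ⟶ G.obj Y n) (g : G.obj Y n ⟶ G.obj V (n + i)),
      G.dim Y + i = G.dim V ∧ IsoAt M (G.dim V - i - 2 * n) (f ≫ g)
  /-- the Künneth formula for the cohomology of the realisations -/
  tensor : ∀ (n : ℤ) {X X' Y Y' : M.T} (f : X ⟶ X') (g : Y ⟶ Y'),
    (∀ a b : ℤ, a + b = n → ZeroAt M a f ∨ ZeroAt M b g) → ZeroAt M n (f ⊗ₘ g)
  /-- duality for the cohomology of the realisations -/
  dual : ∀ (n : ℤ) {X Y : M.T} (f : X ⟶ Y), ZeroAt M n f →
    ZeroAt M (-n) (rightAdjointMate f)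

/-! ### The field of rational functions -/

/-- The base change functor `pull` from the motives over `K` to the motives over the field `K(t)` of
rational functions, and the class of `t` in the group `Hom(1, 1(1)[1]) = K(t)^* ⊗ ℚ`. -/
structure RationalData (G : Varieties.{u} M) (G' : Varieties.{u} M') where
  pull : M.T ⥤ M'.T
  [monoidal : pull.Monoidal]
  [commShift : pull.CommShift ℤ]
  t : 𝟙_ M'.T ⟶ G'.tate⟦(-1 : ℤ)⟧

attribute [instance] RationalData.monoidal RationalData.commShift

/-- The product `1 ⟶ Z ⊗ 1(1)[1]` over `K(t)` of a morphism `f : 1 ⟶ Z` over `K` with the class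
of `t`. -/
noncomputable def RationalData.timesT {G : Varieties.{u} M} {G' : Varieties.{u} M'}
    (E : RationalData G G') {Z : M.T} (f : 𝟙_ M.T ⟶ Z) :
    𝟙_ M'.T ⟶ E.pull.obj Z ⊗ G'.tate⟦(-1 : ℤ)⟧ :=
  (Functor.LaxMonoidal.ε E.pull ≫ E.pull.map f) ≫ (ρ_ (E.pull.obj Z)).inv ≫
    (E.pull.obj Z ◁ E.t)

/-- The properties of the base change from `K` to the field of rational functions `K(t)`. -/
structure IsRational {G : Varieties.{u} M} {G' : Varieties.{u} M'} (E : RationalData G G') :
    Prop where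
  /-- base change does not change the degrees of the realisations -/
  deg : SameDegrees E.pull
  /-- the base change of a Chow motive is a Chow motive -/
  chow : ∀ X : M.T, G.Chow X → G'.Chow (E.pull.obj X)
  /-- multiplication by `t` is injective: the residue at `t = 0` is a left inverse -/
  residue : ∀ (Z : M.T) (f : 𝟙_ M.T ⟶ Z), E.timesT f = 0 → f = 0

/-! ### The conditions -/

/-- The Künneth standard conjecture: every `h(V)(n)[2n]` has a degree operator. -/
def KunnethC (G : Varieties.{u} M) : Prop :=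
  ∀ (V : G.Var) (n : ℤ), ∃ δ : G.obj V n ⟶ G.obj V n, IsDegree M δ

/-- The motivic cohomology of middle degree and middle weight: let `d = dim V`, let `δ` be a degree
operator of `h(V)(n)[2n]`, and let `f` be a class in
`Hom(1, h(V)(n)[2n][d - 2n]) = H^d(V, ℚ(n))` with `δ f = (d - 2n) f` (so that `f` is of weight `d`)
which is numerically trivial; then `f = 0`. For `2n ≠ d` all classes are numerically
trivial, and for `2n > d` the condition says that there are no classes of weight `d` in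
`H^d(V, ℚ(n))`, except `0`. For `2n < d` the group is zero. -/
def MiddleWeight (G : Varieties.{u} M) : Prop :=
  ∀ (V : G.Var) (n m : ℤ) (δ : G.obj V n ⟶ G.obj V n) (f : 𝟙_ M.T ⟶ (G.obj V n)⟦m⟧),
    m = G.dim V - 2 * n → IsDegree M δ → IsMultiple M m f (f ≫ δ⟦m⟧') → NumTrivial M f → f = 0

/-- Murre's condition on Chow motives `X` with realisations in one degree `d`: a nonzero
`g : X[d] ⟶ 1` is numerically non-trivial. -/
def PureNumerical (M : Motives.{v₁, v₂, u₁, u₂} Λ) (𝒞 : ObjectProperty M.T) : Prop :=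
  ∀ (X : M.T) (d : ℤ), 𝒞 X → InDeg M.R M.s d X → ∀ g : X⟦d⟧ ⟶ 𝟙_ M.T, g ≠ 0 →
    ∃ x : 𝟙_ M.T ⟶ X⟦d⟧, x ≫ g ≠ 0

end Pool.Agent.KS6_28.MW
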