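import Pool.Agent.KS6_28.MW.Hyp

/-!
# Multiplication by `t`
-/

set_option linter.unusedSectionVars false
set_option linter.style.haveILetI false

open CategoryTheory Limits MonoidalCategory Triangulated Pretriangulated

universe u v₁ v₂ u₁ u₂ w w'

namespace Pool.Agent.KS6_28.MW

open Pool.Agent.KS6_13.PF
open Pool.Agent.W492
open Pool.Agent.W492.MT (Setup InDeg IsSum tr)
open Pool.Agent.W492.PC Pool.Agent.W492.TS

variable {Λ : Type w} [Nonempty Λ]

section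
variable {M : Motives.{v₁, v₂, u₁, u₂} Λ} {G : Varieties.{u} M}

theorem chow_tate (hG : IsSmoothProj G) : G.Chow G.tate := by
  obtain ⟨V, n, ⟨r⟩⟩ := hG.setup.one_mem
  obtain ⟨e⟩ := hG.twist V n
  exact ⟨V, n + 1, ⟨(Retract.ofIso (ρ_ G.tate).symm).trans
    ((r.map (tensorLeft G.tate)).trans (Retract.ofIso e.symm))⟩⟩

theorem inDeg_pull {M' : Motives.{v₁, v₂, u₁, u₂} Λ} {F : M.T ⥤ M'.T} (hF : SameDegrees F)
    {X : M.T} {d : ℤ} (hX : InDeg M.R M.s d X) : InDeg M'.R M'.s d (F.obj X) :=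
  ⟨fun ℓ => (hF ℓ d X).1.2 (hX.1 ℓ), fun ℓ => (hF ℓ d X).2.2 (hX.2 ℓ)⟩

/-- the product with the class of `t` -/
theorem eq_zero_of_rational {M' : Motives.{v₁, v₂, u₁, u₂} Λ} {G' : Varieties.{u} M'}
    {E : RationalData G G'} (hE : IsRational E) {X : M.T} {m : ℤ}
    (h : ∀ g : 𝟙_ M'.T ⟶ (E.pull.obj X ⊗ G'.tate)⟦m - 1⟧, g = 0) (f : 𝟙_ M.T ⟶ X⟦m⟧) :
    f = 0 := by
  apply hE.residue
  refine hom_zero_iso (Iso.refl _) ?_ h _
  exact (tensorShiftIso (E.pull.obj X) G'.tate m (-1) (m - 1) (by ring)).symm ≪≫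
    ((E.pull.commShiftIso m).symm.app X ⊗ᵢ Iso.refl _)

end

section
variable {ι : Type w'} {M : ι → Motives.{v₁, v₂, u₁, u₂} Λ} {G : ∀ K, Varieties.{u} (M K)}
  (hG : ∀ K, IsSmoothProj (G K))
  (hE : ∀ K, ∃ (K' : ι) (E : RationalData (G K) (G K')), IsRational E)
  (hN : ∀ K, PureNumerical (M K) (G K).Chow)
include hG hE hN

/-- `Hom(1, X⟦d - g⟧) = 0` for `X` in degree `d` and `g ≥ 1`. -/
theorem gap_zero (g : ℕ) : ∀ (K : ι) (X : (M K).T) (d : ℤ), (G K).Chow X →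
    InDeg (M K).R (M K).s d X → ∀ f : 𝟙_ (M K).T ⟶ X⟦d - (g + 1)⟧, f = 0 := by
  induction g with
  | zero =>
    intro K X d hX hd f
    rcases lt_or_ge 0 (d - ((0 : ℕ) + 1) : ℤ) with h | h
    · exact (hG K).setup.orth _ _ (hG K).setup.one_mem hX _ h f
    · obtain ⟨K', E, hE'⟩ := hE K
      refine eq_zero_of_rational hE' ?_ f
      have h1 : (d - ((0 : ℕ) + 1) - 1 : ℤ) = d + -2 := by push_cast; ring
      rw [h1]
      exact hom_zero_of_neg (hG K') (hN K')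
        ((hG K').setup.tensor_mem _ _ (hE'.chow X hX) (chow_tate (hG K')))
        (inDeg_tensor (hG K') (inDeg_pull hE'.deg hd) (hG K').tate_deg) (by omega)
  | succ g ih =>
    intro K X d hX hd f
    obtain ⟨K', E, hE'⟩ := hE K
    refine eq_zero_of_rational hE' ?_ f
    have h1 : (d - (((g + 1 : ℕ) : ℤ) + 1) - 1 : ℤ) = (d + -2) - (g + 1) := by push_cast; ring
    rw [h1]
    exact ih K' _ _ ((hG K').setup.tensor_mem _ _ (hE'.chow X hX) (chow_tate (hG K')))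
      (inDeg_tensor (hG K') (inDeg_pull hE'.deg hd) (hG K').tate_deg)

theorem neg_vanishing (K : ι) (X : (M K).T) (d : ℤ) (hX : (G K).Chow X)
    (hd : InDeg (M K).R (M K).s d X) (m : ℤ) (hm : m < d) (f : 𝟙_ (M K).T ⟶ X⟦m⟧) : f = 0 := by
  obtain ⟨g, hg⟩ : ∃ g : ℕ, m = d - (g + 1) := ⟨(d - m - 1).toNat, by omega⟩
  subst hg
  exact gap_zero hG hE hN g K X d hX hd f

theorem motivic_of_pureNumerical (hK : ∀ K, MT.Kunneth (M K).R (M K).s (G K).Chow) (K : ι) :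
    (M K).toRealised.HasMotivicTStructure := by
  rw [hasMotivicTStructure_iff]
  have key := (general_criterion (hG K).setup (lefschetz (hG K))).out 0 1
  exact key.2 ⟨hK K, fun X d hX hd => ⟨neg_vanishing hG hE hN K X d hX hd, hN K X d hX hd⟩⟩

end

/-- condition (3) implies condition (2) -/
theorem pureNumerical_of_middleWeight {M : Motives.{v₁, v₂, u₁, u₂} Λ} {G : Varieties.{u} M}
    (hG : IsSmoothProj G) (hC : KunnethC G) (hW : MiddleWeight G) :
    PureNumerical M G.Chow :=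
  pureNumerical_of hG fun _ _ hX hd f hf => wt_of_inDeg hG hC hW hX hd f hf

end Pool.Agent.KS6_28.MW
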