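import Pool.Agent.KS6_28.MW.Num
import Pool.Agent.KS6_13.PF.Field

/-!
# The hard Lefschetz property
-/

set_option linter.unusedSectionVars false
set_option linter.style.haveILetI false

open CategoryTheory Limits MonoidalCategory Triangulated Pretriangulated

universe u v₁ v₂ u₁ u₂ w

namespace Pool.Agent.KS6_28.MW

open Pool.Agent.KS6_13.PF
open Pool.Agent.W492
open Pool.Agent.W492.MT (Setup InDeg IsSum tr)
open Pool.Agent.W492.PC Pool.Agent.W492.TS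

variable {Λ : Type w} [Nonempty Λ] {M : Motives.{v₁, v₂, u₁, u₂} Λ} {G : Varieties.{u} M}

theorem inDeg_tensor (hG : IsSmoothProj G) {X Y : M.T} {a b : ℤ} (hX : InDeg M.R M.s a X)
    (hY : InDeg M.R M.s b Y) : InDeg M.R M.s (a + b) (X ⊗ Y) :=
  RDeg.tensor (R := M.R) (s := M.s) hG.setup.tensorExact hX hY

theorem inDeg_unit (hG : IsSmoothProj G) : InDeg M.R M.s 0 (𝟙_ M.T) :=
  ⟨fun ℓ => ((M.s ℓ).le 0).prop_of_iso (Functor.Monoidal.εIso (M.R ℓ))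
      (hG.setup.unit_simple ℓ).1,
    fun ℓ => ((M.s ℓ).ge 0).prop_of_iso (Functor.Monoidal.εIso (M.R ℓ))
      (hG.setup.unit_simple ℓ).2.1⟩

theorem exists_twist (hG : IsSmoothProj G) (i : ℕ) : ∃ J J' : M.T,
    InDeg M.R M.s (-(2 * i)) J ∧ Nonempty (J' ⊗ J ≅ 𝟙_ M.T) ∧
      ∀ (V : G.Var) (n : ℤ), Nonempty (G.obj V (n + i) ≅ J ⊗ G.obj V n) := by
  induction i with
  | zero =>
    refine ⟨𝟙_ M.T, 𝟙_ M.T, ?_, ⟨λ_ _⟩, fun V n => ⟨?_⟩⟩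
    · have := inDeg_unit hG
      simpa using this
    · exact eqToIso (by simp) ≪≫ (λ_ (G.obj V n)).symm
  | succ i ih =>
    obtain ⟨J, J', h1, ⟨e⟩, h3⟩ := ih
    obtain ⟨L, ⟨eL⟩⟩ := hG.tate_inv
    refine ⟨G.tate ⊗ J, J' ⊗ L, ?_, ⟨?_⟩, fun V n => ?_⟩
    · have := inDeg_tensor hG hG.tate_deg h1
      have h : (-(2 * ((i + 1 : ℕ) : ℤ))) = -2 + -(2 * (i : ℤ)) := by push_cast; ring
      rwa [h]
    · exact α_ _ _ _ ≪≫ (Iso.refl J' ⊗ᵢ ((α_ _ _ _).symm ≪≫ (eL ⊗ᵢ Iso.refl J) ≪≫ λ_ J)) ≪≫ e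
    · obtain ⟨e1⟩ := hG.twist V (n + i)
      obtain ⟨e2⟩ := h3 V n
      refine ⟨eqToIso (by push_cast; rw [add_assoc]) ≪≫ e1 ≪≫ (Iso.refl G.tate ⊗ᵢ e2) ≪≫
        (α_ _ _ _).symm⟩

theorem lefschetz (hG : IsSmoothProj G) : MT.Lefschetz M.R M.s G.Chow := by
  rintro X ⟨V, n, r⟩
  refine ⟨G.obj V n, G.dim V - 2 * n, chow_obj V n, r, fun m => ?_⟩
  obtain ⟨J, J', h1, h2, h3⟩ := exists_twist hG m
  obtain ⟨e⟩ := h3 V n
  rcases le_or_gt m (G.dim V) with h | h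
  · obtain ⟨Y, f, g, -, hfg⟩ := hG.hyperplane V n m h
    refine ⟨J, J', (f ≫ g) ≫ e.hom, h1, h2, fun ℓ => ?_⟩
    haveI := hfg ℓ
    have h4 : (G.dim V : ℤ) - 2 * n - m = G.dim V - m - 2 * n := by ring
    rw [h4, Functor.map_comp, Functor.map_comp]
    infer_instance
  · refine ⟨J, J', 0, h1, h2, fun ℓ => ?_⟩
    have h4 := (hG.degrees V n ℓ).1
    have h5 := (hG.degrees V (n + m) ℓ).2
    have z1 : IsZero (((M.s ℓ).truncGELE (G.dim V - 2 * n - m) (G.dim V - 2 * n - m)).obj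
        ((M.R ℓ).obj (G.obj V n))) :=
      isZero_H_of_ge (M.s ℓ) (m := -2 * n) (by omega) ⟨h4⟩
    have z2 : IsZero (((M.s ℓ).truncGELE (G.dim V - 2 * n - m) (G.dim V - 2 * n - m)).obj
        ((M.R ℓ).obj (J ⊗ G.obj V n))) := by
      refine (isZero_H_of_le (M.s ℓ) (m := 2 * G.dim V - 2 * (n + m)) ?_ ⟨h5⟩).of_iso
        (((M.s ℓ).truncGELE _ _).mapIso ((M.R ℓ).mapIso e.symm))
      omega
    exact ⟨⟨0, z1.eq_of_src _ _, z2.eq_of_src _ _⟩⟩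

end Pool.Agent.KS6_28.MW
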