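import Pool.Agent.KS6_28.MW.Nil

/-!
# Chow-Künneth decompositions
-/

set_option linter.unusedSectionVars false
set_option linter.style.haveILetI false

open CategoryTheory Limits MonoidalCategory Triangulated Pretriangulated

universe u v₁ v₂ u₁ u₂ w

namespace Pool.Agent.KS6_28.MW

open Pool.Agent.KS6_13.PF
open Pool.Agent.W492
open Pool.Agent.W492.MT (Setup InDeg IsSum tr)
open Pool.Agent.W492.PC

section
variable {C : Type u₁} [Category.{v₁} C] [Preadditive C] [HasBinaryBiproducts C]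

/-- the decomposition given by an idempotent -/
noncomputable def splitIso {X A B : C} (a : Retract A X) (b : Retract B X)
    (h : a.r ≫ a.i + b.r ≫ b.i = 𝟙 X) : X ≅ A ⊞ B where
  hom := biprod.lift a.r b.r
  inv := biprod.desc a.i b.i
  hom_inv_id := by rw [biprod.lift_desc, h]
  inv_hom_id := by
    have h1 : a.i ≫ b.r ≫ b.i = 0 := by
      have := a.i ≫= h
      rw [Preadditive.comp_add, ← Category.assoc, a.retract, Category.id_comp,
        Category.comp_id] at this
      simpa using this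
    have h2 : a.i ≫ b.r = 0 := by
      have := h1 =≫ b.r
      rwa [Category.assoc, Category.assoc, b.retract, Category.comp_id, zero_comp] at this
    have h3 : b.i ≫ a.r ≫ a.i = 0 := by
      have := b.i ≫= h
      rw [Preadditive.comp_add, ← Category.assoc b.i b.r, b.retract, Category.id_comp,
        Category.comp_id] at this
      simpa using this
    have h4 : b.i ≫ a.r = 0 := by
      have := h3 =≫ a.r
      rwa [Category.assoc, Category.assoc, a.retract, Category.comp_id, zero_comp] at this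
    ext <;> simp [h2, h4]

end

variable {Λ : Type w} [Nonempty Λ] {M : Motives.{v₁, v₂, u₁, u₂} Λ} {G : Varieties.{u} M}

theorem ev_retract {X Y : M.T} (r : Retract Y X) {δ : X ⟶ X}
    (h : δ ≫ r.r ≫ r.i = (r.r ≫ r.i) ≫ δ) (p : Polynomial ℚ) :
    ev (r.i ≫ δ ≫ r.r) p = r.i ≫ ev δ p ≫ r.r := by
  induction p using Polynomial.induction_on with
  | C a => rw [ev_C, ev_C, Linear.smul_comp, Category.id_comp, Linear.comp_smul, r.retract]
  | add p q hp hq => rw [ev_add, ev_add, hp, hq, Preadditive.add_comp, Preadditive.comp_add]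
  | monomial n a ih =>
    obtain ⟨q, hq⟩ : ∃ q : Polynomial ℚ, q = Polynomial.C a * Polynomial.X ^ n := ⟨_, rfl⟩
    rw [← hq] at ih
    rw [pow_succ, ← mul_assoc, ← hq, ev_mul, ev_mul, ih, ev_X, ev_X]
    have h1 : (r.i ≫ ev δ q ≫ r.r) ≫ r.i ≫ δ ≫ r.r =
        r.i ≫ ev δ q ≫ (δ ≫ r.r ≫ r.i) ≫ r.r := by
      rw [h]
      simp only [Category.assoc]
    rw [h1]
    simp only [Category.assoc, r.retract, Category.comp_id]

theorem inDeg_of_isDegree_smul {X : M.T} {a : ℤ} (h : IsDegree M ((a : ℚ) • 𝟙 X)) :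
    InDeg M.R M.s a X := by
  refine inDeg_of_zeroAt fun n hn => ?_
  have h1 := (h n).smul ((a : ℚ) - n)⁻¹
  have h2 : (a : ℚ) - n ≠ 0 := by
    rw [sub_ne_zero]
    exact_mod_cast hn.symm
  rwa [← sub_smul, smul_smul, inv_mul_cancel₀ h2, one_smul] at h1

theorem isSum_of_poly (hG : IsSmoothProj G) (S : Finset ℤ) {X : M.T} (hX : G.Chow X)
    {δ : X ⟶ X} (hδ : IsDegree M δ)
    (h : ev δ (∏ a ∈ S, (Polynomial.X - Polynomial.C (a : ℚ))) = 0) :
    ∃ n, IsSum (fun Y => ∃ d, G.Chow Y ∧ InDeg M.R M.s d Y) n X := by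
  classical
  induction S using Finset.induction_on generalizing X with
  | empty =>
    rw [Finset.prod_empty, ev_one] at h
    exact ⟨0, (IsZero.iff_id_eq_zero X).2 h⟩
  | insert a S ha ih =>
    obtain ⟨p, hp⟩ : ∃ p : Polynomial ℚ, p = ∏ a ∈ S, (Polynomial.X - Polynomial.C (a : ℚ)) :=
      ⟨_, rfl⟩
    rw [Finset.prod_insert ha, ← hp] at h
    rw [← hp] at ih
    have hc : p.eval (a : ℚ) ≠ 0 := by
      rw [hp, Polynomial.eval_prod, Finset.prod_ne_zero_iff]
      intro b hb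
      rw [Polynomial.eval_sub, Polynomial.eval_X, Polynomial.eval_C, sub_ne_zero]
      intro h1
      have h2 : a = b := by exact_mod_cast h1
      exact ha (h2 ▸ hb)
    obtain ⟨c, hc'⟩ : ∃ c, c = p.eval (a : ℚ) := ⟨_, rfl⟩
    rw [← hc'] at hc
    have h1 : ev δ p ≫ ev δ p = c • ev δ p := by
      obtain ⟨q, hq⟩ : (Polynomial.X - Polynomial.C (a : ℚ)) ∣ p - Polynomial.C c :=
        Polynomial.dvd_iff_isRoot.2 (by simp [hc'])
      have h2 : ev δ p = c • 𝟙 X + ev δ ((Polynomial.X - Polynomial.C (a : ℚ)) * q) := by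
        rw [← hq, ev_sub_C, add_sub_cancel]
      have h3 : ev δ p ≫ ev δ ((Polynomial.X - Polynomial.C (a : ℚ)) * q) = 0 := by
        rw [← ev_mul, ← mul_assoc, mul_comm p, ev_mul, h, zero_comp]
      nth_rewrite 2 [h2]
      rw [Preadditive.comp_add, h3, add_zero, Linear.comp_smul, Category.comp_id]
    obtain ⟨e, he⟩ : ∃ e : X ⟶ X, e = c⁻¹ • ev δ p := ⟨_, rfl⟩
    have h2 : e ≫ e = e := by
      rw [he, Linear.smul_comp, Linear.comp_smul, h1, smul_smul c⁻¹ c, inv_mul_cancel₀ hc,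
        one_smul]
    have h3 : (𝟙 X - e) ≫ (𝟙 X - e) = 𝟙 X - e := by simp [h2]
    obtain ⟨A, iA, rA, hA1, hA2⟩ := IsIdempotentComplete.idempotents_split X e h2
    obtain ⟨B, iB, rB, hB1, hB2⟩ := IsIdempotentComplete.idempotents_split X (𝟙 X - e) h3
    let RA : Retract A X := ⟨iA, rA, hA1⟩
    let RB : Retract B X := ⟨iB, rB, hB1⟩
    have h4 : δ ≫ e = e ≫ δ := by
      have := ev_comm δ Polynomial.X p
      rw [ev_X] at this
      rw [he, Linear.comp_smul, Linear.smul_comp, this]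
    have h5 : δ ≫ e = (a : ℚ) • e := by
      have h6 : (δ - (a : ℚ) • 𝟙 X) ≫ ev δ p = 0 := by rw [← ev_X_sub_C, ← ev_mul, h]
      rw [Preadditive.sub_comp, Linear.smul_comp, Category.id_comp, sub_eq_zero] at h6
      rw [he, Linear.comp_smul, h6, smul_comm]
    -- the part of degree `a`
    have hAdeg : IsDegree M ((a : ℚ) • 𝟙 A) := by
      have h6 := hδ.retract RA
      have h7 : RA.i ≫ δ ≫ RA.r = (a : ℚ) • 𝟙 A := by
        have h8 : δ ≫ rA = (a : ℚ) • rA := by
          have h9 : rA = e ≫ rA := by rw [← hA2, Category.assoc, hA1, Category.comp_id]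
          rw [h9, ← Category.assoc, h5, Linear.smul_comp]
        change iA ≫ δ ≫ rA = _
        rw [h8, Linear.comp_smul, hA1]
      rwa [h7] at h6
    -- the rest
    have h6 : δ ≫ RB.r ≫ RB.i = (RB.r ≫ RB.i) ≫ δ := by
      change δ ≫ rB ≫ iB = (rB ≫ iB) ≫ δ
      rw [hB2, Preadditive.comp_sub, Preadditive.sub_comp, h4, Category.comp_id,
        Category.id_comp]
    have h7 : ev (RB.i ≫ δ ≫ RB.r) p = 0 := by
      rw [ev_retract RB h6]
      have h8 : ev δ p = c • e := by rw [he, smul_smul, mul_inv_cancel₀ hc, one_smul]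
      have h9 : iB ≫ e = 0 := by
        have h10 : e = 𝟙 X - rB ≫ iB := by rw [hB2]; abel
        rw [h10, Preadditive.comp_sub, Category.comp_id, ← Category.assoc, hB1,
          Category.id_comp, sub_self]
      change iB ≫ ev δ p ≫ rB = 0
      rw [h8, Linear.smul_comp, Linear.comp_smul, ← Category.assoc, h9, zero_comp, smul_zero]
    obtain ⟨n, hn⟩ := ih (X := B) (hG.setup.retract_mem B X hX ⟨RB⟩) (hδ.retract RB) h7
    refine ⟨n + 1, A, B, ⟨a, hG.setup.retract_mem A X hX ⟨RA⟩, inDeg_of_isDegree_smul hAdeg⟩, hn,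
      ⟨splitIso RA RB ?_⟩⟩
    change rA ≫ iA + rB ≫ iB = 𝟙 X
    rw [hA2, hB2]
    abel

theorem exists_poly (hG : IsSmoothProj G) (hB : Base G) {X : M.T}
    (hX : G.Chow X) {δ : X ⟶ X} (hδ : IsDegree M δ) :
    ∃ S : Finset ℤ, ev δ (∏ a ∈ S, (Polynomial.X - Polynomial.C (a : ℚ))) = 0 := by
  obtain ⟨S, -, hS⟩ := bdd_chow hG hX
  refine ⟨S, eq_zero_of_comm hG hB hX hδ ?_ (numTrivial_cls hG fun n => ?_)⟩
  · have := ev_comm δ (∏ a ∈ S, (Polynomial.X - Polynomial.C (a : ℚ))) Polynomial.X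
    rwa [ev_X] at this
  · by_cases hn : n ∈ S
    · refine zeroAt_ev_of_root hδ n _ ?_
      rw [Polynomial.eval_prod]
      exact Finset.prod_eq_zero hn (by simp)
    · exact (hS n hn).of_id_left _

/-- Chow-Künneth decompositions. -/
theorem kunneth (hG : IsSmoothProj G) (hB : Base G) :
    MT.Kunneth M.R M.s G.Chow := by
  intro X hX
  obtain ⟨δ, hδ⟩ := hB.deg X hX
  obtain ⟨S, hS⟩ := exists_poly hG hB hX hδ
  exact isSum_of_poly hG S hX hδ hS

end Pool.Agent.KS6_28.MW
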