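import Pool.Agent.KS6_28.MW.Reg

/-!
# Every Chow motive in one degree is a part of the middle cohomology of a variety
-/

set_option linter.unusedSectionVars false
set_option linter.style.haveILetI false

open CategoryTheory Limits MonoidalCategory Triangulated Pretriangulated

universe u v₁ v₂ u₁ u₂ w

namespace Pool.Agent.KS6_28.MW

open Pool.Agent.KS6_13.PF
open Pool.Agent.W492
open Pool.Agent.W492.MT (Setup InDeg IsSum tr)
open Pool.Agent.W492.PC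

variable {Λ : Type w} [Nonempty Λ] {M : Motives.{v₁, v₂, u₁, u₂} Λ} {G : Varieties.{u} M}

/-- the part of degree `d` -/
theorem exists_part_of_poly (hG : IsSmoothProj G) (S : Finset ℤ) {X : M.T} (hX : G.Chow X)
    {δ : X ⟶ X} (hδ : IsDegree M δ)
    (h : ev δ (∏ a ∈ S, (Polynomial.X - Polynomial.C (a : ℚ))) = 0) (d : ℤ) (hd : d ∈ S) :
    ∃ (A : M.T) (r : Retract A X), G.Chow A ∧ InDeg M.R M.s d A ∧
      ZeroAt M d (𝟙 X - r.r ≫ r.i) := by
  classical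
  obtain ⟨p, hp⟩ : ∃ p : Polynomial ℚ,
      p = ∏ a ∈ S.erase d, (Polynomial.X - Polynomial.C (a : ℚ)) := ⟨_, rfl⟩
  rw [← Finset.mul_prod_erase S _ hd, ← hp] at h
  have hroot : ∀ b ∈ S, b ≠ d → p.eval (b : ℚ) = 0 := by
    intro b hb hbd
    rw [hp, Polynomial.eval_prod]
    exact Finset.prod_eq_zero (Finset.mem_erase.2 ⟨hbd, hb⟩) (by simp)
  have hc : p.eval (d : ℚ) ≠ 0 := by
    rw [hp, Polynomial.eval_prod, Finset.prod_ne_zero_iff]
    intro b hb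
    rw [Polynomial.eval_sub, Polynomial.eval_X, Polynomial.eval_C, sub_ne_zero]
    intro h1
    have h2 : d = b := by exact_mod_cast h1
    exact (Finset.mem_erase.1 hb).1 h2.symm
  obtain ⟨c, hc'⟩ : ∃ c, c = p.eval (d : ℚ) := ⟨_, rfl⟩
  rw [← hc'] at hc
  have h1 : ev δ p ≫ ev δ p = c • ev δ p := by
    obtain ⟨q, hq⟩ : (Polynomial.X - Polynomial.C (d : ℚ)) ∣ p - Polynomial.C c :=
      Polynomial.dvd_iff_isRoot.2 (by simp [hc'])
    have h2 : ev δ p = c • 𝟙 X + ev δ ((Polynomial.X - Polynomial.C (d : ℚ)) * q) := by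
      rw [← hq, ev_sub_C, add_sub_cancel]
    have h3 : ev δ p ≫ ev δ ((Polynomial.X - Polynomial.C (d : ℚ)) * q) = 0 := by
      rw [← ev_mul, ← mul_assoc, mul_comm p, ev_mul, h, zero_comp]
    nth_rewrite 2 [h2]
    rw [Preadditive.comp_add, h3, add_zero, Linear.comp_smul, Category.comp_id]
  obtain ⟨e, he⟩ : ∃ e : X ⟶ X, e = c⁻¹ • ev δ p := ⟨_, rfl⟩
  have h2 : e ≫ e = e := by
    rw [he, Linear.smul_comp, Linear.comp_smul, h1, smul_smul c⁻¹ c, inv_mul_cancel₀ hc,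
      one_smul]
  obtain ⟨A, iA, rA, hA1, hA2⟩ := IsIdempotentComplete.idempotents_split X e h2
  have hAC : G.Chow A := hG.setup.retract_mem A X hX ⟨⟨iA, rA, hA1⟩⟩
  -- the restriction of `δ` to `A` is `d`
  have h5 : δ ≫ e = (d : ℚ) • e := by
    have h6 : (δ - (d : ℚ) • 𝟙 X) ≫ ev δ p = 0 := by rw [← ev_X_sub_C, ← ev_mul, h]
    rw [Preadditive.sub_comp, Linear.smul_comp, Category.id_comp, sub_eq_zero] at h6
    rw [he, Linear.comp_smul, h6, smul_comm]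
  have hAdeg : IsDegree M ((d : ℚ) • 𝟙 A) := by
    have h6 := hδ.retract (⟨iA, rA, hA1⟩ : Retract A X)
    have h7 : iA ≫ δ ≫ rA = (d : ℚ) • 𝟙 A := by
      have h8 : δ ≫ rA = (d : ℚ) • rA := by
        have h9 : rA = e ≫ rA := by rw [← hA2, Category.assoc, hA1, Category.comp_id]
        rw [h9, ← Category.assoc, h5, Linear.smul_comp]
      rw [h8, Linear.comp_smul, hA1]
    rwa [h7] at h6
  refine ⟨A, ⟨iA, rA, hA1⟩, hAC, inDeg_of_isDegree_smul hAdeg, ?_⟩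
  change ZeroAt M d (𝟙 X - rA ≫ iA)
  rw [hA2, he]
  have h6 := (zeroAt_ev hδ d p).smul c⁻¹
  rw [← hc', smul_sub, smul_smul, inv_mul_cancel₀ hc, one_smul] at h6
  have h7 := h6.neg
  rwa [neg_sub] at h7

section
variable (hG : IsSmoothProj G) (hB : Base G)
include hG hB

theorem exists_part {X : M.T} (hX : G.Chow X) (d : ℤ) :
    ∃ (A : M.T) (r : Retract A X), G.Chow A ∧ InDeg M.R M.s d A ∧
      ZeroAt M d (𝟙 X - r.r ≫ r.i) := by
  classical
  obtain ⟨δ, hδ⟩ := hB.deg X hX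
  obtain ⟨S, hS⟩ := exists_poly hG hB hX hδ
  refine exists_part_of_poly hG (insert d S) hX hδ ?_ d (Finset.mem_insert_self d S)
  by_cases hd : d ∈ S
  · rwa [Finset.insert_eq_of_mem hd]
  · rw [Finset.prod_insert hd, mul_comm, ev_mul, hS, zero_comp]

theorem isZero_or_exists_middle' {V : G.Var} {n : ℤ} {X : M.T} (r : Retract X (G.obj V n))
    {d : ℤ} (hd : InDeg M.R M.s d X) :
    IsZero X ∨ ∃ (Y : G.Var) (n' : ℤ), (G.dim Y : ℤ) - 2 * n' = d ∧ G.dim Y ≤ G.dim V ∧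
      (d + 2 * n ≤ G.dim V → n' = n) ∧ Nonempty (Retract X (G.obj Y n')) := by
  have hX : G.Chow X := ⟨V, n, ⟨r⟩⟩
  by_cases hq : d + 2 * n < 0 ∨ 2 * (G.dim V : ℤ) < d + 2 * n
  · left
    rw [IsZero.iff_id_eq_zero]
    refine eq_zero_of_zeroAt hG hB hX hX hd hd _ ?_
    have h1 : ZeroAt M d (𝟙 (G.obj V n)) := by
      rcases hq with hq | hq
      · exact zeroAt_of_ge (m := -2 * n) (by omega) (fun ℓ => (hG.degrees V n ℓ).1) _
      · exact zeroAt_of_le (m := 2 * G.dim V - 2 * n) (by omega)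
          (fun ℓ => (hG.degrees V n ℓ).2) _
    have h2 : 𝟙 X = r.i ≫ 𝟙 _ ≫ r.r := by rw [Category.id_comp, r.retract]
    rw [h2]
    exact (h1.comp_right _).comp_left _
  push Not at hq
  right
  rcases le_or_gt (d + 2 * n) (G.dim V) with hq1 | hq1
  · -- below the middle
    obtain ⟨i, hi⟩ : ∃ i : ℕ, (i : ℤ) = G.dim V - (d + 2 * n) :=
      ⟨(G.dim V - (d + 2 * n)).toNat, by omega⟩
    obtain ⟨Y, f, g, hY, hfg⟩ := hG.hyperplane V n i (by omega)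
    have hdeg : (G.dim V : ℤ) - i - 2 * n = d := by omega
    rw [hdeg] at hfg
    obtain ⟨A, a, hA, hAd, hAz⟩ := exists_part hG hB (chow_obj (G := G) V (n + i)) d
    obtain ⟨φ, hφ⟩ : ∃ φ : X ⟶ A, φ = r.i ≫ (f ≫ g) ≫ a.r := ⟨_, rfl⟩
    obtain ⟨k, hk⟩ := reg hG hB hX hA hd hAd φ
    have hz : 𝟙 X - φ ≫ k = 0 := by
      refine eq_zero_of_zeroAt hG hB hX hX hd hd _ ?_
      obtain ⟨z, hz⟩ : ∃ z : X ⟶ X, z = 𝟙 X - φ ≫ k := ⟨_, rfl⟩
      rw [← hz]
      have h1 : z ≫ φ = 0 := by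
        rw [hz, Preadditive.sub_comp, Category.id_comp, Category.assoc, hk, sub_self]
      have h2 : ZeroAt M d ((z ≫ r.i) ≫ (f ≫ g)) := by
        have h3 : (z ≫ r.i) ≫ (f ≫ g) = ((z ≫ r.i) ≫ (f ≫ g)) ≫ (𝟙 _ - a.r ≫ a.i) := by
          rw [Preadditive.comp_sub, Category.comp_id]
          have h4 : ((z ≫ r.i) ≫ f ≫ g) ≫ a.r ≫ a.i = (z ≫ φ) ≫ a.i := by
            rw [hφ]
            simp only [Category.assoc]
          rw [h4, h1, zero_comp, sub_zero]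
        rw [h3]
        exact hAz.comp_left _
      have h3 : ZeroAt M d (z ≫ r.i) := h2.of_comp_isoAt hfg
      have h4 : z = (z ≫ r.i) ≫ r.r := by rw [Category.assoc, r.retract, Category.comp_id]
      rw [h4]
      exact h3.comp_right _
    refine ⟨Y, n, by omega, by omega, fun _ => rfl, ⟨⟨r.i ≫ f, g ≫ a.r ≫ k, ?_⟩⟩⟩
    rw [sub_eq_zero] at hz
    rw [hz, hφ]
    simp only [Category.assoc]
  · -- above the middle
    obtain ⟨i, hi⟩ : ∃ i : ℕ, (i : ℤ) = (d + 2 * n) - G.dim V :=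
      ⟨((d + 2 * n) - G.dim V).toNat, by omega⟩
    obtain ⟨n', rfl⟩ : ∃ n', n = n' + i := ⟨n - i, by ring⟩
    obtain ⟨Y, f, g, hY, hfg⟩ := hG.hyperplane V n' i (by omega)
    have hdeg : (G.dim V : ℤ) - i - 2 * n' = d := by omega
    rw [hdeg] at hfg
    obtain ⟨A, a, hA, hAd, hAz⟩ := exists_part hG hB (chow_obj (G := G) V n') d
    obtain ⟨ψ, hψ⟩ : ∃ ψ : A ⟶ X, ψ = a.i ≫ (f ≫ g) ≫ r.r := ⟨_, rfl⟩
    obtain ⟨k, hk⟩ := reg hG hB hA hX hAd hd ψ
    have hz : 𝟙 X - k ≫ ψ = 0 := by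
      refine eq_zero_of_zeroAt hG hB hX hX hd hd _ ?_
      obtain ⟨z, hz⟩ : ∃ z : X ⟶ X, z = 𝟙 X - k ≫ ψ := ⟨_, rfl⟩
      rw [← hz]
      have h1 : ψ ≫ z = 0 := by
        rw [hz, Preadditive.comp_sub, Category.comp_id, hk, sub_self]
      have h2 : ZeroAt M d ((f ≫ g) ≫ (r.r ≫ z)) := by
        have h3 : (f ≫ g) ≫ (r.r ≫ z) = (𝟙 _ - a.r ≫ a.i) ≫ ((f ≫ g) ≫ (r.r ≫ z)) := by
          rw [Preadditive.sub_comp, Category.id_comp]
          have h4 : (a.r ≫ a.i) ≫ (f ≫ g) ≫ r.r ≫ z = a.r ≫ (ψ ≫ z) := by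
            rw [hψ]
            simp only [Category.assoc]
          rw [h4, h1, comp_zero, sub_zero]
        rw [h3]
        exact hAz.comp_right _
      have h3 : ZeroAt M d (r.r ≫ z) := h2.of_isoAt_comp hfg
      have h4 : z = r.i ≫ (r.r ≫ z) := by rw [← Category.assoc, r.retract, Category.id_comp]
      rw [h4]
      exact h3.comp_left _
    refine ⟨Y, n', by omega, by omega, fun h => by omega, ⟨⟨k ≫ a.i ≫ f, g ≫ r.r, ?_⟩⟩⟩
    rw [sub_eq_zero] at hz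
    rw [hz, hψ]
    simp only [Category.assoc]

theorem isZero_or_exists_middle {X : M.T} (hX : G.Chow X) {d : ℤ} (hd : InDeg M.R M.s d X) :
    IsZero X ∨ ∃ (Y : G.Var) (n : ℤ), (G.dim Y : ℤ) - 2 * n = d ∧
      Nonempty (Retract X (G.obj Y n)) := by
  obtain ⟨V, n, ⟨r⟩⟩ := hX
  rcases isZero_or_exists_middle' hG hB r hd with h | ⟨Y, n', h1, -, -, h2⟩
  · exact Or.inl h
  · exact Or.inr ⟨Y, n', h1, h2⟩

end

/-- classes `1 ⟶ X⟦d⟧` in degree `d` -/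
theorem wt_of_inDeg (hG : IsSmoothProj G) (hC : KunnethC G) (hW : MiddleWeight G) {X : M.T}
    (hX : G.Chow X) {d : ℤ} (hd : InDeg M.R M.s d X)
    (f : 𝟙_ M.T ⟶ X⟦d⟧) (hf : NumTrivial M f) : f = 0 := by
  rcases isZero_or_exists_middle hG (base hG hC hW) hX hd with h | ⟨Y, n, hn, ⟨r⟩⟩
  · exact (Functor.map_isZero (shiftFunctor M.T d) h).eq_of_tgt _ _
  · have h1 := wt_obj hW Y n
    rw [hn] at h1
    refine (h1.retract r (hC Y n)) ((d : ℚ) • 𝟙 X) f (isDegree_of_inDeg hd) ?_ hf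
    rw [Functor.map_smul, CategoryTheory.Functor.map_id, Linear.comp_smul, Category.comp_id]

end Pool.Agent.KS6_28.MW
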