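import Pool.Agent.KS6_28.MW.Weight

/-!
# Numerically trivial endomorphisms which commute with a degree operator
-/

set_option linter.unusedSectionVars false
set_option linter.style.haveILetI false

open CategoryTheory Limits MonoidalCategory Triangulated Pretriangulated

universe u v₁ v₂ u₁ u₂ w

namespace Pool.Agent.KS6_28.MW

open Pool.Agent.KS6_13.PF
open Pool.Agent.W492.MT (Setup InDeg Kunneth IsSum tr)
open Pool.Agent.W492.PC

variable {Λ : Type w} [Nonempty Λ] {M : Motives.{v₁, v₂, u₁, u₂} Λ} {G : Varieties.{u} M}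

theorem chow_obj (V : G.Var) (n : ℤ) : G.Chow (G.obj V n) := ⟨V, n, ⟨Retract.refl _⟩⟩

theorem bdd_chow (hG : IsSmoothProj G) {X : M.T} (hX : G.Chow X) : Bdd M X := by
  obtain ⟨V, n, ⟨r⟩⟩ := hX
  refine Bdd.retract r ⟨Finset.Icc (-2 * n) (2 * G.dim V - 2 * n), ⟨-2 * n, ?_⟩, fun b hb => ?_⟩
  · rw [Finset.mem_Icc]
    constructor <;> omega
  · rw [Finset.mem_Icc, not_and_or, not_le, not_le] at hb
    rcases hb with hb | hb
    · exact zeroAt_of_ge hb (fun ℓ => (hG.degrees V n ℓ).1) _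
    · exact zeroAt_of_le hb (fun ℓ => (hG.degrees V n ℓ).2) _

theorem hasDegree_chow (hC : KunnethC G) {X : M.T} (hX : G.Chow X) : HasDegree M X := by
  obtain ⟨V, n, ⟨r⟩⟩ := hX
  exact HasDegree.retract r (hC V n)

theorem not_zeroAt_unit (hG : IsSmoothProj G) : ¬ ZeroAt M 0 (𝟙 (𝟙_ M.T)) := by
  intro h
  have ℓ : Λ := Classical.arbitrary Λ
  have h1 := h ℓ
  rw [CategoryTheory.Functor.map_id, CategoryTheory.Functor.map_id] at h1
  have h2 : IsZero (((M.s ℓ).truncGELE 0 0).obj ((M.R ℓ).obj (𝟙_ M.T))) :=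
    (IsZero.iff_id_eq_zero _).2 h1
  have e : 𝟙_ (M.D ℓ) ≅ (M.R ℓ).obj (𝟙_ M.T) := Functor.Monoidal.εIso (M.R ℓ)
  have h3 : IsZero (((M.s ℓ).truncGELE 0 0).obj (𝟙_ (M.D ℓ))) :=
    h2.of_iso (((M.s ℓ).truncGELE 0 0).mapIso e)
  obtain ⟨h4, h5, -⟩ := hG.setup.unit_simple ℓ
  have h6 : (M.s ℓ).IsLE (𝟙_ (M.D ℓ)) (-1) := by
    refine isLE_of_H (M.s ℓ) 0 ⟨h4⟩ fun n hn => ?_
    rcases eq_or_lt_of_le (show 0 ≤ n by omega) with h7 | h7
    · subst h7
      exact h3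
    · exact isZero_H_of_le (M.s ℓ) h7 ⟨h4⟩
  haveI : (M.s ℓ).IsGE (𝟙_ (M.D ℓ)) 0 := ⟨h5⟩
  exact hG.setup.unit_ne ℓ ((M.s ℓ).isZero _ (-1) 0 (by norm_num))

/-- an endomorphism of `1` with zero cohomology is zero. -/
theorem end_unit_eq_zero (hG : IsSmoothProj G) (e : 𝟙_ M.T ⟶ 𝟙_ M.T) (h : ZeroAt M 0 e) :
    e = 0 := by
  obtain ⟨a, ha⟩ := M.scalar e
  by_cases h0 : a = 0
  · rw [ha, h0, zero_smul]
  · exfalso
    apply not_zeroAt_unit hG
    have h1 : 𝟙 (𝟙_ M.T) = a⁻¹ • e := by rw [ha, smul_smul, inv_mul_cancel₀ h0, one_smul]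
    rw [h1]
    exact h.smul _

theorem numTrivial_of_zeroAt (hG : IsSmoothProj G) {X : M.T} {f : 𝟙_ M.T ⟶ X}
    (h : ZeroAt M 0 f) : NumTrivial M f := fun g => end_unit_eq_zero hG _ (h.comp_right g)

theorem zeroAt_cls (hG : IsSmoothProj G) {X Y : M.T} {e : X ⟶ Y}
    (h : ∀ n, ZeroAt M n e) : ZeroAt M 0 (cls e) := by
  have h1 := zeroAt_whisker hG 0 e (𝟙 Xᘁ) fun a _ _ => Or.inl (h a)
  rw [MonoidalCategory.whiskerLeft_id, Category.comp_id] at h1
  exact h1.comp_left _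

theorem numTrivial_cls (hG : IsSmoothProj G) {X Y : M.T} {e : X ⟶ Y}
    (h : ∀ n, ZeroAt M n e) : NumTrivial M (cls e) := numTrivial_of_zeroAt hG (zeroAt_cls hG h)

/-- the retraction of `Y ⊗ Yᘁ` to `X ⊗ Xᘁ` -/
noncomputable def retractEnd {X Y : M.T} (r : Retract X Y) : Retract (X ⊗ Xᘁ) (Y ⊗ Yᘁ) where
  i := r.i ▷ Xᘁ ≫ Y ◁ rightAdjointMate r.r
  r := Y ◁ rightAdjointMate r.i ≫ r.r ▷ Xᘁ
  retract := by
    rw [Category.assoc, ← Category.assoc (Y ◁ rightAdjointMate r.r),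
      ← MonoidalCategory.whiskerLeft_comp, ← comp_rightAdjointMate, r.retract,
      rightAdjointMate_id, MonoidalCategory.whiskerLeft_id, Category.id_comp,
      ← comp_whiskerRight, r.retract, id_whiskerRight]

theorem Wt.of_iso {m : ℤ} {X Y : M.T} (e : X ≅ Y) (hY : HasDegree M Y) (h : Wt M m Y) :
    Wt M m X := h.retract (Retract.ofIso e) hY

theorem wt_obj (hW : MiddleWeight G) (V : G.Var) (n : ℤ) :
    Wt M (G.dim V - 2 * n) (G.obj V n) := fun δ f hδ h1 h2 =>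
  hW V n _ δ f rfl hδ h1 h2

theorem wt_end (hG : IsSmoothProj G) (hC : KunnethC G) (hW : MiddleWeight G) {X : M.T}
    (hX : G.Chow X) : Wt M 0 (X ⊗ Xᘁ) := by
  obtain ⟨V, n, ⟨r⟩⟩ := hX
  obtain ⟨W, hW1, ⟨e⟩⟩ := hG.square V n
  have h1 : Wt M 0 (G.obj W (G.dim V)) := by
    have := wt_obj hW W (G.dim V)
    rw [hW1] at this
    push_cast at this
    rwa [sub_self] at this
  have h2 : HasDegree M (G.obj W (G.dim V)) := hC W _
  have h3 : Wt M 0 (G.obj V n ⊗ (G.obj V n)ᘁ) := h1.of_iso e.symm h2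
  exact h3.retract (retractEnd r) (h2.retract (Retract.ofIso e.symm))

/-- the properties of Chow motives which are used for the Künneth decompositions -/
structure Base (G : Varieties.{u} M) : Prop where
  deg : ∀ X : M.T, G.Chow X → HasDegree M X
  wt : ∀ X : M.T, G.Chow X → Wt M 0 (X ⊗ Xᘁ)

theorem base (hG : IsSmoothProj G) (hC : KunnethC G) (hW : MiddleWeight G) : Base G :=
  ⟨fun _ hX => hasDegree_chow hC hX, fun _ hX => wt_end hG hC hW hX⟩

/-- **Key lemma.** -/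
theorem eq_zero_of_comm (hG : IsSmoothProj G) (hB : Base G) {X : M.T}
    (hX : G.Chow X) {δ e : X ⟶ X} (hδ : IsDegree M δ) (h : e ≫ δ = δ ≫ e)
    (he : NumTrivial M (cls e)) : e = 0 := by
  apply cls_eq_zero
  have h1 : IsDegree M (δ ▷ Xᘁ + X ◁ ((-1 : ℚ) • rightAdjointMate δ)) :=
    hδ.tensor hG (bdd_chow hG hX) (hδ.dual hG)
  have h2 : cls e ≫ (δ ▷ Xᘁ + X ◁ ((-1 : ℚ) • rightAdjointMate δ)) = 0 := by
    rw [Preadditive.comp_add, ← cls_comp, MonoidalLinear.whiskerLeft_smul, Linear.comp_smul,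
      ← comp_cls, h, neg_one_smul, add_neg_cancel]
  have h3 : cls e ≫ (shiftFunctorZero M.T ℤ).inv.app _ = 0 := by
    refine hB.wt X hX _ _ h1 ?_ (he.comp _)
    rw [Category.assoc, ← NatTrans.naturality, ← Category.assoc, Functor.id_map, h2, zero_comp]
    simp
  rw [← cancel_mono ((shiftFunctorZero M.T ℤ).inv.app _), h3, zero_comp]

end Pool.Agent.KS6_28.MW
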