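import Pool.Agent.KS6_28.MW.Lef

/-!
# Numerical equivalence and duality
-/

set_option linter.unusedSectionVars false
set_option linter.style.haveILetI false

open CategoryTheory Limits MonoidalCategory Triangulated Pretriangulated

universe u v₁ v₂ u₁ u₂ w

namespace Pool.Agent.KS6_28.MW

open Pool.Agent.KS6_13.PF
open Pool.Agent.W492
open Pool.Agent.W492.MT (Setup InDeg IsSum tr)
open Pool.Agent.W492.PC

section
variable {T : Type u₁} [Category.{v₁} T] [Preadditive T] [HasShift T ℤ]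
  [∀ n : ℤ, (shiftFunctor T n).Additive]

theorem hom_zero_of_shift {P Q : T} (n m : ℤ) (h : n + m = 0) (hf : ∀ f : P⟦n⟧ ⟶ Q, f = 0)
    (f : P ⟶ Q⟦m⟧) : f = 0 := by
  apply (shiftFunctor T n).map_injective
  rw [Functor.map_zero]
  let e : Q⟦m⟧⟦n⟧ ≅ Q :=
    (shiftFunctorAdd' T m n 0 (by omega)).symm.app Q ≪≫ (shiftFunctorZero T ℤ).app Q
  have h1 := hf (f⟦n⟧' ≫ e.hom)
  rw [← cancel_mono e.hom, h1, zero_comp]

theorem hom_zero_of_shift' {P Q : T} (n m : ℤ) (h : n + m = 0) (hf : ∀ f : P ⟶ Q⟦m⟧, f = 0)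
    (f : P⟦n⟧ ⟶ Q) : f = 0 := by
  apply (shiftFunctor T m).map_injective
  rw [Functor.map_zero]
  let e : P⟦n⟧⟦m⟧ ≅ P :=
    (shiftFunctorAdd' T n m 0 (by omega)).symm.app P ≪≫ (shiftFunctorZero T ℤ).app P
  have h1 := hf (e.inv ≫ f⟦m⟧')
  rw [← cancel_epi e.inv, h1, comp_zero]

end

variable {Λ : Type w} [Nonempty Λ] {M : Motives.{v₁, v₂, u₁, u₂} Λ} {G : Varieties.{u} M}

/-- duality: `Hom(1, Y⟦e⟧) = 0` if `Hom(Yᘁ ⊗ 1, 1⟦e⟧) = 0`. -/
theorem hom_zero_of_dual' {Y : M.T} (e : ℤ)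
    (h : ∀ g : Yᘁ ⊗ 𝟙_ M.T ⟶ (𝟙_ M.T)⟦e⟧, g = 0) (f : 𝟙_ M.T ⟶ Y⟦e⟧) : f = 0 := by
  let i : Y⟦e⟧ ≅ Y ⊗ (𝟙_ M.T)⟦e⟧ :=
    (shiftFunctor M.T e).mapIso (ρ_ Y).symm ≪≫ (((tensorLeft Y).commShiftIso e).app _).symm
  have h1 : f ≫ i.hom = 0 := by
    apply (tensorLeftHomEquiv (𝟙_ M.T) Y Yᘁ ((𝟙_ M.T)⟦e⟧)).symm.injective
    exact (h _).trans (h _).symm
  rw [← cancel_mono i.hom, h1, zero_comp]

theorem chow_tensor_unit (hG : IsSmoothProj G) {X : M.T} (hX : G.Chow X) :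
    G.Chow (X ⊗ 𝟙_ M.T) := hG.setup.tensor_mem _ _ hX hG.setup.one_mem

theorem inDeg_tensor_unit {X : M.T} {d : ℤ} (hX : InDeg M.R M.s d X) :
    InDeg M.R M.s d (X ⊗ 𝟙_ M.T) := inDeg_of_iso (ρ_ X) hX

/-- `Hom(X⟦d⟧, 1) = 0` for `d < 0`. -/
theorem hom_unit_zero (hG : IsSmoothProj G) {X : M.T} (hX : G.Chow X) {d : ℤ} (hd : d < 0)
    (g : X⟦d⟧ ⟶ 𝟙_ M.T) : g = 0 :=
  hom_zero_of_shift' d (-d) (by ring) (hG.setup.orth X _ hX hG.setup.one_mem (-d) (by omega)) g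

/-- condition `PureNumerical` in terms of classes `1 ⟶ X⟦d⟧` -/
theorem pureNumerical_of (hG : IsSmoothProj G)
    (h : ∀ (X : M.T) (d : ℤ), G.Chow X → InDeg M.R M.s d X → ∀ f : 𝟙_ M.T ⟶ X⟦d⟧,
      NumTrivial M f → f = 0) : PureNumerical M G.Chow := by
  intro X d hX hd g hg
  rcases lt_trichotomy d 0 with h0 | h0 | h0
  · exact absurd (hom_unit_zero hG hX h0 g) hg
  · subst h0
    by_contra hne
    push Not at hne
    apply hg
    obtain ⟨g', hg'⟩ : ∃ g' : X ⟶ 𝟙_ M.T, g = (shiftFunctorZero M.T ℤ).hom.app X ≫ g' :=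
      ⟨(shiftFunctorZero M.T ℤ).inv.app X ≫ g, by simp⟩
    have h1 : ∀ x : 𝟙_ M.T ⟶ X, x ≫ g' = 0 := fun x => by
      have := hne (x ≫ (shiftFunctorZero M.T ℤ).inv.app X)
      rw [hg'] at this
      simpa using this
    have h2 : NumTrivial M (cls g') := by
      intro ξ
      have h3 := h1 (η_ X Xᘁ ≫ (X ◁ ((λ_ Xᘁ).inv ≫ ξ)) ≫ (ρ_ X).hom)
      rw [← h3]
      unfold cls
      rw [Category.assoc, Category.assoc, Category.assoc, ← MonoidalCategory.rightUnitor_naturality,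
        whisker_exchange_assoc, ← MonoidalCategory.unitors_equal,
        MonoidalCategory.leftUnitor_naturality]
      simp
    have h4 : cls g' ≫ (shiftFunctorZero M.T ℤ).inv.app _ = 0 := by
      refine h (𝟙_ M.T ⊗ Xᘁ) 0 (hG.setup.tensor_mem _ _ hG.setup.one_mem (hG.setup.dual_mem X hX))
        (inDeg_of_iso (λ_ Xᘁ) ?_) _ (h2.comp _)
      have := hG.setup.dual_deg X 0 hX hd
      rwa [neg_zero] at this
    have h5 : cls g' = 0 := by
      rw [← cancel_mono ((shiftFunctorZero M.T ℤ).inv.app _), h4, zero_comp]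
    rw [hg', cls_eq_zero g' h5, comp_zero]
  · exfalso
    apply hg
    refine hom_zero_of_shift' d (-d) (by ring) ?_ g
    refine hom_zero_of_dual ?_
    refine hom_zero_iso (Iso.refl _) (((tensorLeft Xᘁ).commShiftIso (-d)).app (𝟙_ M.T)).symm ?_
    intro f
    refine h _ (-d) (chow_tensor_unit hG (hG.setup.dual_mem X hX))
      (inDeg_tensor_unit (hG.setup.dual_deg X d hX hd)) f fun g => ?_
    rw [hom_unit_zero hG (chow_tensor_unit hG (hG.setup.dual_mem X hX)) (by omega) g, comp_zero]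

/-- `Hom(1, Y⟦e⟧) = 0` for `Y` in degree `e < 0`. -/
theorem hom_zero_of_neg (hG : IsSmoothProj G) (h : PureNumerical M G.Chow) {Y : M.T} {e : ℤ}
    (hY : G.Chow Y) (hd : InDeg M.R M.s e Y) (he : e < 0) (f : 𝟙_ M.T ⟶ Y⟦e⟧) : f = 0 := by
  refine hom_zero_of_dual' e ?_ f
  refine hom_zero_of_shift (-e) e (by ring) ?_
  intro g
  by_contra hg
  obtain ⟨x, hx⟩ := h (Yᘁ ⊗ 𝟙_ M.T) (-e) (chow_tensor_unit hG (hG.setup.dual_mem Y hY))
    (inDeg_tensor_unit (hG.setup.dual_deg Y e hY hd)) g hg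
  exact hx (by rw [hG.setup.orth _ _ hG.setup.one_mem
    (chow_tensor_unit hG (hG.setup.dual_mem Y hY)) (-e) (by omega) x, zero_comp])

end Pool.Agent.KS6_28.MW
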