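import Pool.Agent.KS6_28.MW.Kun

/-!
# Semisimplicity in one degree
-/

set_option linter.unusedSectionVars false
set_option linter.style.haveILetI false

open CategoryTheory Limits MonoidalCategory Triangulated Pretriangulated

universe u v₁ v₂ u₁ u₂ w

namespace Pool.Agent.KS6_28.MW

open Pool.Agent.KS6_13.PF
open Pool.Agent.W492
open Pool.Agent.W492.MT (Setup InDeg IsSum tr)
open Pool.Agent.W492.PC

section
variable {T : Type u₁} [Category.{v₁} T] [MonoidalCategory T] [SymmetricCategory T]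
  [RightRigidCategory T]

theorem tr_comm {X Y : T} (f : X ⟶ Y) (g : Y ⟶ X) : tr (f ≫ g) = tr (g ≫ f) := by
  have h1 : (g ▷ Xᘁ) ≫ (β_ X Xᘁ).hom ≫ ε_ X Xᘁ =
      (Y ◁ rightAdjointMate g) ≫ (β_ Y Yᘁ).hom ≫ ε_ Y Yᘁ := by
    rw [BraidedCategory.braiding_naturality_left_assoc,
      BraidedCategory.braiding_naturality_right_assoc, rightAdjointMate_comp_evaluation]
  unfold tr
  rw [comp_whiskerRight, comp_whiskerRight, Category.assoc, Category.assoc, h1,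
    ← whisker_exchange_assoc, ← Category.assoc (η_ X Xᘁ), coevaluation_comp_rightAdjointMate,
    Category.assoc]

theorem exists_tr_eq {X : T} (g : X ⊗ Xᘁ ⟶ 𝟙_ T) :
    ∃ h : X ⟶ X, ∀ a : X ⟶ X, (η_ X Xᘁ ≫ a ▷ Xᘁ) ≫ g = tr (a ≫ h) := by
  obtain ⟨g', hg'⟩ : ∃ g' : Xᘁ ⊗ X ⟶ 𝟙_ T, g = (β_ X Xᘁ).hom ≫ g' :=
    ⟨(β_ X Xᘁ).inv ≫ g, by simp⟩
  refine ⟨tensorLeftHomEquiv X X Xᘁ (𝟙_ T) g' ≫ (ρ_ X).hom, fun a => ?_⟩
  have h1 : Xᘁ ◁ (tensorLeftHomEquiv X X Xᘁ (𝟙_ T) g' ≫ (ρ_ X).hom) ≫ ε_ X Xᘁ = g' := by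
    have h2 : (tensorLeftHomEquiv X X Xᘁ (𝟙_ T)).symm (tensorLeftHomEquiv X X Xᘁ (𝟙_ T) g') = g' :=
      Equiv.symm_apply_apply _ _
    nth_rewrite 2 [← h2]
    generalize tensorLeftHomEquiv X X Xᘁ (𝟙_ T) g' = k
    simp [tensorLeftHomEquiv, MonoidalCategory.unitors_equal]
  unfold tr
  rw [comp_whiskerRight, Category.assoc, Category.assoc,
    BraidedCategory.braiding_naturality_left_assoc, h1, ← hg']

end

variable {Λ : Type w} [Nonempty Λ] {M : Motives.{v₁, v₂, u₁, u₂} Λ} {G : Varieties.{u} M}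

theorem inDeg_biprod {d : ℤ} {X Y : M.T} (hX : InDeg M.R M.s d X) (hY : InDeg M.R M.s d Y) :
    InDeg M.R M.s d (X ⊞ Y) := by
  refine inDeg_of_zeroAt fun n hn => ?_
  rw [← biprod.total]
  exact ((zeroAt_of_inDeg_right hn hX biprod.fst).comp_right _).add
    ((zeroAt_of_inDeg_right hn hY biprod.snd).comp_right _)

section
variable (hG : IsSmoothProj G) (hB : Base G)
include hG hB

theorem end_eq_zero_of_numTrivial {d : ℤ} {X : M.T} (hX : G.Chow X) (hd : InDeg M.R M.s d X)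
    (e : X ⟶ X) (he : NumTrivial M (cls e)) : e = 0 := by
  refine eq_zero_of_comm hG hB hX (isDegree_of_inDeg hd) ?_ he
  rw [Linear.comp_smul, Linear.smul_comp, Category.comp_id, Category.id_comp]

theorem eq_zero_of_numTrivial {d : ℤ} {X Y : M.T} (hX : G.Chow X) (hY : G.Chow Y)
    (hX' : InDeg M.R M.s d X) (hY' : InDeg M.R M.s d Y) (e : X ⟶ Y)
    (he : NumTrivial M (cls e)) : e = 0 := by
  have h1 : (biprod.fst ≫ e ≫ biprod.inr : X ⊞ Y ⟶ X ⊞ Y) = 0 := by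
    refine end_eq_zero_of_numTrivial hG hB (hG.setup.sum_mem X Y hX hY)
      (inDeg_biprod hX' hY') _ ?_
    rw [comp_cls, cls_comp, Category.assoc]
    exact he.comp _
  have h2 : e = biprod.inl ≫ (biprod.fst ≫ e ≫ biprod.inr : X ⊞ Y ⟶ X ⊞ Y) ≫ biprod.snd := by
    simp
  rw [h2, h1, zero_comp, comp_zero]

theorem eq_zero_of_zeroAt {d : ℤ} {X Y : M.T} (hX : G.Chow X) (hY : G.Chow Y)
    (hX' : InDeg M.R M.s d X) (hY' : InDeg M.R M.s d Y) (e : X ⟶ Y)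
    (he : ZeroAt M d e) : e = 0 := by
  refine eq_zero_of_numTrivial hG hB hX hY hX' hY' e (numTrivial_cls hG fun n => ?_)
  by_cases hn : n = d
  · rwa [hn]
  · exact zeroAt_of_inDeg_left hn hX' e

theorem reg_end {d : ℤ} {X : M.T} (hX : G.Chow X) (hd : InDeg M.R M.s d X) : Reg X X := by
  refine exists_quasi_inverse ℚ M.scalar (hG.setup.finRank X hX) (hG.setup.trNil X hX) ?_
  intro a ha
  by_contra h
  push Not at h
  apply ha
  refine end_eq_zero_of_numTrivial hG hB hX hd a fun g => ?_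
  obtain ⟨k, hk⟩ := exists_tr_eq g
  rw [cls, hk, tr_comm, h]

theorem reg {d : ℤ} {X Y : M.T} (hX : G.Chow X) (hY : G.Chow Y)
    (hX' : InDeg M.R M.s d X) (hY' : InDeg M.R M.s d Y) : Reg X Y :=
  ((reg_end hG hB (hG.setup.sum_mem X Y hX hY) (inDeg_biprod hX' hY')).retract_left
    ⟨biprod.inl, biprod.fst, biprod.inl_fst⟩).retract_right ⟨biprod.inr, biprod.snd, biprod.inr_snd⟩

end

end Pool.Agent.KS6_28.MW
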