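import Pool.Agent.KS6_28.MW.Basic
import Mathlib.LinearAlgebra.Lagrange

/-!
# Degree operators on tensor products and duals
-/

set_option linter.unusedSectionVars false
set_option linter.style.haveILetI false

open CategoryTheory Limits MonoidalCategory Triangulated Pretriangulated

universe u v₁ v₂ u₁ u₂ w

namespace Pool.Agent.KS6_28.MW

open Pool.Agent.KS6_13.PF
open Pool.Agent.W492.MT (Setup InDeg Kunneth IsSum tr)
open Pool.Agent.W492.PC

variable {Λ : Type w} {M : Motives.{v₁, v₂, u₁, u₂} Λ}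

/-- the cohomology of `X` lives in finitely many degrees -/
def Bdd (M : Motives.{v₁, v₂, u₁, u₂} Λ) (X : M.T) : Prop :=
  ∃ S : Finset ℤ, S.Nonempty ∧ ∀ n, n ∉ S → ZeroAt M n (𝟙 X)

theorem Bdd.retract {X Y : M.T} (r : Retract X Y) (hY : Bdd M Y) : Bdd M X := by
  obtain ⟨S, hS, h⟩ := hY
  refine ⟨S, hS, fun n hn => ?_⟩
  rw [← r.retract]
  have h1 : r.i ≫ r.r = r.i ≫ 𝟙 Y ≫ r.r := by rw [Category.id_comp]
  rw [h1]
  exact ((h n hn).comp_right _).comp_left _

theorem ZeroAt.of_id_left {n : ℤ} {X Y : M.T} (h : ZeroAt M n (𝟙 X)) (f : X ⟶ Y) :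
    ZeroAt M n f := by
  have := h.comp_right f
  rwa [Category.id_comp] at this

/-! ### polynomials in a degree operator -/

/-- the algebra homomorphism given by an endomorphism -/
noncomputable def evA {X : M.T} (δ : End X) : Polynomial ℚ →ₐ[ℚ] End X :=
  Polynomial.aeval δ

/-- a polynomial in an endomorphism -/
noncomputable def ev {X : M.T} (δ : X ⟶ X) (p : Polynomial ℚ) : X ⟶ X := evA (X := X) δ p

theorem ev_add {X : M.T} (δ : X ⟶ X) (p q : Polynomial ℚ) : ev δ (p + q) = ev δ p + ev δ q :=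
  (evA (X := X) δ).map_add p q

theorem ev_mul {X : M.T} (δ : X ⟶ X) (p q : Polynomial ℚ) : ev δ (p * q) = ev δ p ≫ ev δ q := by
  rw [mul_comm]
  exact (evA (X := X) δ).map_mul q p

theorem ev_one {X : M.T} (δ : X ⟶ X) : ev δ 1 = 𝟙 X := (evA (X := X) δ).map_one

theorem ev_sum {X : M.T} (δ : X ⟶ X) {ι : Type*} (S : Finset ι) (p : ι → Polynomial ℚ) :
    ev δ (∑ i ∈ S, p i) = ∑ i ∈ S, ev δ (p i) := map_sum (evA (X := X) δ) p S

theorem ev_C {X : M.T} (δ : X ⟶ X) (c : ℚ) : ev δ (Polynomial.C c) = c • 𝟙 X := by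
  have h : evA (X := X) δ (Polynomial.C c) = algebraMap ℚ (End X) c := Polynomial.aeval_C _ _
  rw [Algebra.algebraMap_eq_smul_one] at h
  exact h

theorem ev_X {X : M.T} (δ : X ⟶ X) : ev δ Polynomial.X = δ :=
  Polynomial.aeval_X (R := ℚ) (A := End X) δ

theorem ev_sub_C {X : M.T} (δ : X ⟶ X) (p : Polynomial ℚ) (c : ℚ) :
    ev δ (p - Polynomial.C c) = ev δ p - c • 𝟙 X := by
  have h := ev_add δ (p - Polynomial.C c) (Polynomial.C c)
  rw [sub_add_cancel, ev_C] at h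
  rw [h, add_sub_cancel_right]

theorem ev_X_sub_C {X : M.T} (δ : X ⟶ X) (c : ℚ) :
    ev δ (Polynomial.X - Polynomial.C c) = δ - c • 𝟙 X := by
  rw [ev_sub_C, ev_X]

theorem ev_comm {X : M.T} (δ : X ⟶ X) (p q : Polynomial ℚ) :
    ev δ p ≫ ev δ q = ev δ q ≫ ev δ p := by rw [← ev_mul, ← ev_mul, mul_comm]

theorem comm_ev {X : M.T} {δ e : X ⟶ X} (h : e ≫ δ = δ ≫ e) (p : Polynomial ℚ) :
    e ≫ ev δ p = ev δ p ≫ e := by
  induction p using Polynomial.induction_on with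
  | C a => rw [ev_C, Linear.comp_smul, Linear.smul_comp, Category.comp_id, Category.id_comp]
  | add p q hp hq => rw [ev_add, Preadditive.comp_add, Preadditive.add_comp, hp, hq]
  | monomial n a ih =>
    rw [pow_succ, ← mul_assoc, ev_mul, ev_X, ← Category.assoc, ih, Category.assoc, h,
      Category.assoc]

/-- a polynomial in a degree operator acts on the cohomology in degree `n` as its value at `n`. -/
theorem zeroAt_ev {X : M.T} {δ : X ⟶ X} (hδ : IsDegree M δ) (n : ℤ) (p : Polynomial ℚ) :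
    ZeroAt M n (ev δ p - (p.eval (n : ℚ)) • 𝟙 X) := by
  obtain ⟨q, hq⟩ : (Polynomial.X - Polynomial.C (n : ℚ)) ∣ p - Polynomial.C (p.eval (n : ℚ)) :=
    Polynomial.dvd_iff_isRoot.2 (by simp)
  have h1 : ev δ p - (p.eval (n : ℚ)) • 𝟙 X = (δ - (n : ℚ) • 𝟙 X) ≫ ev δ q := by
    rw [← ev_sub_C, hq, ev_mul, ev_X_sub_C]
  rw [h1]
  exact (hδ n).comp_right _

theorem zeroAt_ev_of_root {X : M.T} {δ : X ⟶ X} (hδ : IsDegree M δ) (n : ℤ) (p : Polynomial ℚ)
    (h : p.eval (n : ℚ) = 0) : ZeroAt M n (ev δ p) := by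
  have := zeroAt_ev hδ n p
  rwa [h, zero_smul, sub_zero] at this

/-- Künneth projectors up to homological equivalence, with sum `1`. -/
theorem exists_projectors {X : M.T} (hX : Bdd M X) {δ : X ⟶ X} (hδ : IsDegree M δ) :
    ∃ (S : Finset ℤ) (E : ℤ → (X ⟶ X)), ∑ a ∈ S, E a = 𝟙 X ∧
      ∀ a ∈ S, ∀ b : ℤ, b ≠ a → ZeroAt M b (E a) := by
  classical
  obtain ⟨S, hS, h⟩ := hX
  refine ⟨S, fun a => ev δ (Lagrange.basis S (fun a : ℤ => (a : ℚ)) a), ?_, ?_⟩
  · rw [← ev_sum, Lagrange.sum_basis (fun a _ b _ hab => by exact_mod_cast hab) hS, ev_one]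
  · intro a ha b hb
    by_cases hbS : b ∈ S
    · exact zeroAt_ev_of_root hδ b _ (Lagrange.eval_basis_of_ne hb.symm hbS)
    · exact (h b hbS).of_id_left _

/-! ### tensor products and duals -/

variable {G : Varieties.{u} M}

theorem zeroAt_whisker (hG : IsSmoothProj G) (n : ℤ) {X X' Y Y' : M.T} (f : X ⟶ X')
    (g : Y ⟶ Y') (h : ∀ a b : ℤ, a + b = n → ZeroAt M a f ∨ ZeroAt M b g) :
    ZeroAt M n (f ▷ Y ≫ X' ◁ g) := by
  rw [← MonoidalCategory.tensorHom_def]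
  exact hG.tensor n f g h

/-- the sum of the degree operators of `X` and `Y` is a degree operator of `X ⊗ Y`. -/
theorem IsDegree.tensor (hG : IsSmoothProj G) {X Y : M.T} (hX : Bdd M X) {δ : X ⟶ X}
    (hδ : IsDegree M δ) {ε : Y ⟶ Y} (hε : IsDegree M ε) :
    IsDegree M (δ ▷ Y + X ◁ ε) := by
  intro n
  obtain ⟨S, E, h1, h2⟩ := exists_projectors hX hδ
  have h3 : δ ▷ Y + X ◁ ε - (n : ℚ) • 𝟙 (X ⊗ Y) =
      ∑ a ∈ S, ((E a ≫ (δ - (a : ℚ) • 𝟙 X)) ▷ Y +
        (E a ▷ Y ≫ X ◁ (ε - ((n - a : ℤ) : ℚ) • 𝟙 Y))) := by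
    have h4 : ∀ a : ℤ, (E a ≫ (δ - (a : ℚ) • 𝟙 X)) ▷ Y +
        (E a ▷ Y ≫ X ◁ (ε - ((n - a : ℤ) : ℚ) • 𝟙 Y)) =
        E a ▷ Y ≫ (δ ▷ Y + X ◁ ε - (n : ℚ) • 𝟙 (X ⊗ Y)) := by
      intro a
      rw [comp_whiskerRight, ← Preadditive.comp_add]
      congr 1
      rw [sub_eq_add_neg, MonoidalPreadditive.add_whiskerRight, sub_eq_add_neg,
        MonoidalPreadditive.whiskerLeft_add, ← neg_smul, ← neg_smul,
        MonoidalLinear.smul_whiskerRight, MonoidalLinear.whiskerLeft_smul,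
        MonoidalCategory.whiskerLeft_id, MonoidalCategory.id_whiskerRight]
      have h5 : -(((n - a : ℤ) : ℚ)) = (a : ℚ) - (n : ℚ) := by push_cast; ring
      rw [h5, sub_smul, neg_smul]
      abel
    simp only [h4]
    rw [← Preadditive.sum_comp]
    rw [← sum_whiskerRight, h1, MonoidalCategory.id_whiskerRight, Category.id_comp]
  rw [h3]
  refine ZeroAt.sum _ _ fun a ha => ZeroAt.add ?_ ?_
  · have h5 : ∀ b : ℤ, ZeroAt M b (E a ≫ (δ - (a : ℚ) • 𝟙 X)) := by
      intro b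
      by_cases hb : b = a
      · subst hb
        exact (hδ b).comp_left _
      · exact (h2 a ha b hb).comp_right _
    have h6 := zeroAt_whisker hG n (E a ≫ (δ - (a : ℚ) • 𝟙 X)) (𝟙 Y) fun b _ _ => Or.inl (h5 b)
    rwa [MonoidalCategory.whiskerLeft_id, Category.comp_id] at h6
  · refine zeroAt_whisker hG n _ _ fun b c hbc => ?_
    by_cases hb : b = a
    · right
      have h7 : c = n - a := by omega
      rw [← h7]
      exact hε c
    · exact Or.inl (h2 a ha b hb)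

theorem mate_add {X Y : M.T} (f g : X ⟶ Y) :
    rightAdjointMate (f + g) = rightAdjointMate f + rightAdjointMate g := by
  simp [rightAdjointMate, MonoidalPreadditive.add_whiskerRight,
    MonoidalPreadditive.whiskerLeft_add]

theorem mate_smul {X Y : M.T} (c : ℚ) (f : X ⟶ Y) :
    rightAdjointMate (c • f) = c • rightAdjointMate f := by
  simp [rightAdjointMate]

theorem IsDegree.dual (hG : IsSmoothProj G) {X : M.T} {δ : X ⟶ X} (hδ : IsDegree M δ) :
    IsDegree M ((-1 : ℚ) • rightAdjointMate δ) := by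
  intro n
  have h1 : (-1 : ℚ) • rightAdjointMate δ - (n : ℚ) • 𝟙 (Xᘁ) =
      (-1 : ℚ) • rightAdjointMate (δ - ((-n : ℤ) : ℚ) • 𝟙 X) := by
    rw [sub_eq_add_neg, sub_eq_add_neg, mate_add, ← neg_smul, ← neg_smul, mate_smul,
      rightAdjointMate_id, smul_add, smul_smul]
    congr 2
    push_cast
    ring
  rw [h1]
  have h2 := hG.dual (-n) _ (hδ (-n))
  rw [neg_neg] at h2
  exact h2.smul _

end Pool.Agent.KS6_28.MW
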