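import Pool.Agent.KS6_28.MW.Tensor

/-!
# Classes of a given weight
-/

set_option linter.unusedSectionVars false
set_option linter.style.haveILetI false

open CategoryTheory Limits MonoidalCategory Triangulated Pretriangulated

universe u v₁ v₂ u₁ u₂ w

namespace Pool.Agent.KS6_28.MW

open Pool.Agent.KS6_13.PF
open Pool.Agent.W492.MT (Setup InDeg Kunneth IsSum tr)
open Pool.Agent.W492.PC

variable {Λ : Type w} {M : Motives.{v₁, v₂, u₁, u₂} Λ}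

/-- numerically trivial classes `1 ⟶ X⟦m⟧` of weight `m` are zero -/
def Wt (M : Motives.{v₁, v₂, u₁, u₂} Λ) (m : ℤ) (X : M.T) : Prop :=
  ∀ (δ : X ⟶ X) (f : 𝟙_ M.T ⟶ X⟦m⟧), IsDegree M δ → f ≫ δ⟦m⟧' = (m : ℚ) • f →
    NumTrivial M f → f = 0

/-- `X` has a degree operator -/
def HasDegree (M : Motives.{v₁, v₂, u₁, u₂} Λ) (X : M.T) : Prop := ∃ δ : X ⟶ X, IsDegree M δ

theorem HasDegree.retract {X Y : M.T} (r : Retract X Y) (h : HasDegree M Y) : HasDegree M X := by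
  obtain ⟨δ, hδ⟩ := h
  exact ⟨_, hδ.retract r⟩

theorem NumTrivial.comp {X Y : M.T} {f : 𝟙_ M.T ⟶ X} (hf : NumTrivial M f) (g : X ⟶ Y) :
    NumTrivial M (f ≫ g) := fun h => by rw [Category.assoc, hf]

/-- extension of a degree operator of a direct summand -/
theorem IsDegree.extend {X Y : M.T} (r : Retract X Y) {δ : X ⟶ X} (hδ : IsDegree M δ)
    {ε : Y ⟶ Y} (hε : IsDegree M ε) :
    IsDegree M (r.r ≫ δ ≫ r.i + (𝟙 Y - r.r ≫ r.i) ≫ ε ≫ (𝟙 Y - r.r ≫ r.i)) := by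
  intro n
  have h2 : (𝟙 Y - r.r ≫ r.i) ≫ (𝟙 Y - r.r ≫ r.i) = 𝟙 Y - r.r ≫ r.i := by
    simp
  have h1 : r.r ≫ δ ≫ r.i + (𝟙 Y - r.r ≫ r.i) ≫ ε ≫ (𝟙 Y - r.r ≫ r.i) - (n : ℚ) • 𝟙 Y =
      r.r ≫ (δ - (n : ℚ) • 𝟙 X) ≫ r.i +
        (𝟙 Y - r.r ≫ r.i) ≫ (ε - (n : ℚ) • 𝟙 Y) ≫ (𝟙 Y - r.r ≫ r.i) := by
    have h3 : (𝟙 Y - r.r ≫ r.i) ≫ (ε - (n : ℚ) • 𝟙 Y) ≫ (𝟙 Y - r.r ≫ r.i) =
        (𝟙 Y - r.r ≫ r.i) ≫ ε ≫ (𝟙 Y - r.r ≫ r.i) - (n : ℚ) • (𝟙 Y - r.r ≫ r.i) := by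
      rw [Preadditive.sub_comp ε, Preadditive.comp_sub (𝟙 Y - r.r ≫ r.i), Linear.smul_comp,
        Category.id_comp (𝟙 Y - r.r ≫ r.i), Linear.comp_smul, h2]
    have h4 : r.r ≫ (δ - (n : ℚ) • 𝟙 X) ≫ r.i = r.r ≫ δ ≫ r.i - (n : ℚ) • (r.r ≫ r.i) := by
      rw [Preadditive.sub_comp, Preadditive.comp_sub, Linear.smul_comp, Category.id_comp,
        Linear.comp_smul]
    rw [h3, h4, smul_sub]
    abel
  rw [h1]
  exact (((hδ n).comp_right _).comp_left _).add (((hε n).comp_right _).comp_left _)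

theorem Wt.retract {m : ℤ} {X Y : M.T} (r : Retract X Y) (hY : HasDegree M Y) (h : Wt M m Y) :
    Wt M m X := by
  intro δ f hδ h1 h2
  obtain ⟨ε, hε⟩ := hY
  have h3 : r.i ≫ (r.r ≫ δ ≫ r.i + (𝟙 Y - r.r ≫ r.i) ≫ ε ≫ (𝟙 Y - r.r ≫ r.i)) = δ ≫ r.i := by
    simp
  have h4 : f ≫ r.i⟦m⟧' = 0 := by
    refine h _ _ (hδ.extend r hε) ?_ (h2.comp _)
    rw [Category.assoc, ← Functor.map_comp, h3, Functor.map_comp, ← Category.assoc, h1,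
      Linear.smul_comp]
  have h5 : f = (f ≫ r.i⟦m⟧') ≫ r.r⟦m⟧' := by
    rw [Category.assoc, ← Functor.map_comp, r.retract, CategoryTheory.Functor.map_id,
      Category.comp_id]
  rw [h5, h4, zero_comp]

/-! ### the class of an endomorphism -/

/-- the class `1 ⟶ Y ⊗ Xᘁ` of a morphism `X ⟶ Y` -/
noncomputable def cls {X Y : M.T} (e : X ⟶ Y) : 𝟙_ M.T ⟶ Y ⊗ Xᘁ := η_ X Xᘁ ≫ e ▷ Xᘁ

theorem cls_eq_zero {X Y : M.T} (e : X ⟶ Y) (h : cls e = 0) : e = 0 := by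
  have h1 : (λ_ X).hom ≫ e = (tensorRightHomEquiv (𝟙_ M.T) X Xᘁ Y).symm (cls e) := by
    rw [Equiv.eq_symm_apply]
    have h2 := tensorRightHomEquiv_naturality (X := 𝟙_ M.T) (Y := X) (Y' := Xᘁ) (λ_ X).hom e
    rw [h2]
    congr 1
    rw [← Equiv.eq_symm_apply]
    simp [tensorRightHomEquiv]
  rw [h] at h1
  have h3 : (tensorRightHomEquiv (𝟙_ M.T) X Xᘁ Y).symm 0 = 0 := by
    simp [tensorRightHomEquiv]
  rw [h3] at h1
  rw [← cancel_epi (λ_ X).hom, h1, comp_zero]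

theorem cls_comp {X Y Z : M.T} (e : X ⟶ Y) (f : Y ⟶ Z) : cls (e ≫ f) = cls e ≫ f ▷ Xᘁ := by
  simp [cls]

theorem comp_cls {X Y Z : M.T} (e : X ⟶ Y) (f : Y ⟶ Z) :
    cls (e ≫ f) = cls f ≫ Z ◁ rightAdjointMate e := by
  unfold cls
  rw [comp_whiskerRight, ← Category.assoc, ← coevaluation_comp_rightAdjointMate, Category.assoc,
    Category.assoc, whisker_exchange]

end Pool.Agent.KS6_28.MW
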